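import Mathlib

/-! Basic notions: almost invariant sets, residual finiteness, Grothendieck pairs. -/

set_option autoImplicit false

namespace Pool.Agent.MP_e97151_al

/-- `Y` is almost invariant under right multiplication -/
def AInv {G : Type} [Group G] (Y : Set G) : Prop :=
  ∀ g : G, {y | ¬ (y ∈ Y ↔ y * g ∈ Y)}.Finite

/-- there is an infinite, coinfinite almost invariant set -/
def AI (G : Type) [Group G] : Prop :=
  ∃ Y : Set G, Y.Infinite ∧ Yᶜ.Infinite ∧ AInv Y

def RF (G : Type) [Group G] : Prop :=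
  ∀ g : G, g ≠ 1 → ∃ N : Subgroup G, N.Normal ∧ N.FiniteIndex ∧ g ∉ N

/-- Grothendieck pair -/
def GP {G H : Type} [Group G] [Group H] (u : G →* H) : Prop :=
  ∀ (Q : Type) [Group Q] [Finite Q], Function.Bijective (fun φ : H →* Q => φ.comp u)

/-- residually finite groups to which homomorphisms extend along Grothendieck pairs -/
def InC (V : Type) [Group V] : Prop :=
  RF V ∧ ∀ (G H : Type) [Group G] [Group H] (u : G →* H), Group.FG H → GP u →
    ∀ φ : G →* V, ∃ ψ : H →* V, ψ.comp u = φ

/-- the free product of `Q` with the group of order two -/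
abbrev VV (Q : Type) [Group Q] : Type := Monoid.Coprod Q (Multiplicative (ZMod 2))

def zz (Q : Type) [Group Q] : VV Q := Monoid.Coprod.inr (Multiplicative.ofAdd 1)

theorem zz_mul_self (Q : Type) [Group Q] : zz Q * zz Q = 1 := by
  unfold zz
  rw [← map_mul]
  have : (Multiplicative.ofAdd (1 : ZMod 2)) * Multiplicative.ofAdd 1 = 1 := by decide
  rw [this, map_one]

theorem aInv_of_gens {G : Type} [Group G] {S : Set G} (hS : Subgroup.closure S = ⊤) {Y : Set G}
    (h : ∀ s ∈ S, {y | ¬ (y ∈ Y ↔ y * s ∈ Y)}.Finite) : AInv Y := by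
  intro g
  have hg : g ∈ Subgroup.closure S := hS ▸ Subgroup.mem_top g
  induction hg using Subgroup.closure_induction with
  | mem s hs => exact h s hs
  | one => simp
  | mul a b _ _ ha hb =>
    refine (ha.union (hb.preimage (f := fun y => y * a) (mul_left_injective a).injOn)).subset ?_
    intro y hy
    simp only [Set.mem_union, Set.mem_preimage, Set.mem_ofPred_eq, ← mul_assoc] at *
    tauto
  | inv a _ ha =>
    refine (ha.preimage (f := fun y => y * a⁻¹) (mul_left_injective a⁻¹).injOn).subset ?_
    intro y hy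
    simp only [Set.mem_preimage, Set.mem_ofPred_eq, inv_mul_cancel_right] at *
    tauto

theorem RF.avoid {G : Type} [Group G] (h : RF G) {F : Set G} (hF : F.Finite) :
    ∃ N : Subgroup G, N.Normal ∧ N.FiniteIndex ∧ ∀ g ∈ F, g ∈ N → g = 1 := by
  induction F, hF using Set.Finite.induction_on with
  | empty => exact ⟨⊤, inferInstance, inferInstance, by simp⟩
  | @insert a F _ _ ih =>
    obtain ⟨N, hN, hN', hF⟩ := ih
    by_cases ha : a = 1
    · refine ⟨N, hN, hN', ?_⟩
      rintro g (rfl | hg) hgN
      · exact ha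
      · exact hF g hg hgN
    · obtain ⟨M, hM, hM', haM⟩ := h a ha
      refine ⟨N ⊓ M, inferInstance, inferInstance, ?_⟩
      rintro g (rfl | hg) hgN
      · exact absurd hgN.2 haM
      · exact hF g hg hgN.1

theorem finiteIndex_comap {G V : Type} [Group G] [Group V] (N : Subgroup V) [N.FiniteIndex]
    (f : G →* V) : (N.comap f).FiniteIndex :=
  ⟨by rw [Subgroup.index_comap]; exact Subgroup.FiniteIndex.index_ne_zero (H := N.subgroupOf f.range)⟩

theorem RF.of_injective {G V : Type} [Group G] [Group V] (h : RF V) (f : G →* V)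
    (hf : Function.Injective f) : RF G := by
  intro g hg
  obtain ⟨N, hN, hN', hg'⟩ := h (f g) (fun e => hg (hf (by rw [e, map_one])))
  exact ⟨N.comap f, inferInstance, finiteIndex_comap N f, hg'⟩

theorem exists_symm_gens {H : Type} [Group H] (h : Group.FG H) (A : Finset H) :
    ∃ S : Finset H, (∀ a ∈ A, a ∈ S) ∧ (∀ s ∈ S, s⁻¹ ∈ S) ∧
      ∀ g : H, ∃ l : List H, (∀ a ∈ l, a ∈ S) ∧ l.prod = g := by
  classical
  obtain ⟨T, hT⟩ := h.out
  refine ⟨(T ∪ A) ∪ (T ∪ A).image (·⁻¹), fun a ha => by simp [ha], ?_, ?_⟩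
  · intro s hs
    simp only [Finset.mem_union, Finset.mem_image] at *
    rcases hs with hs | ⟨a, ha, rfl⟩
    · exact Or.inr ⟨s, hs, rfl⟩
    · left; simpa using ha
  · intro g
    have hg : g ∈ Subgroup.closure (T : Set H) := hT ▸ Subgroup.mem_top g
    induction hg using Subgroup.closure_induction'' with
    | mem s hs => exact ⟨[s], by simp; exact Or.inl hs, by simp⟩
    | inv_mem s hs =>
      refine ⟨[s⁻¹], ?_, by simp⟩
      intro a ha
      simp only [List.mem_singleton] at ha
      subst ha
      exact Finset.mem_union_right _ (Finset.mem_image.mpr ⟨s, Finset.mem_union_left _ hs, rfl⟩)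
    | one => exact ⟨[], by simp, by simp⟩
    | mul a b _ _ ha hb =>
      obtain ⟨l, hl, rfl⟩ := ha
      obtain ⟨m, hm, rfl⟩ := hb
      refine ⟨l ++ m, ?_, by simp⟩
      intro a ha
      rcases List.mem_append.mp ha with h | h
      · exact hl a h
      · exact hm a h

end Pool.Agent.MP_e97151_al
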