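import Mathlib

/-! The abstract Euler characteristic count over the field with two elements. -/

set_option autoImplicit false

namespace Pool.Agent.MP_e97151_al

lemma inv_rep {X : Type} [Finite X] (φ : X → X) (hφ : Function.Involutive φ) :
    ∃ A : Set X, ∃ rep : X → A, (∀ a : A, rep a = a) ∧ (∀ x, rep (φ x) = rep x) ∧
      (∀ x, (rep x : X) = x ∨ (rep x : X) = φ x) ∧ Nat.card X ≤ 2 * A.ncard ∧
      ((∀ x, φ x ≠ x) → 2 * A.ncard ≤ Nat.card X) := by
  classical
  obtain ⟨enc, henc⟩ := exists_injective_nat X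
  let A : Set X := {a | enc a ≤ enc (φ a)}
  have h1 : ∀ x, x ∉ A → φ x ∈ A := fun x hx => by
    simp only [A, Set.mem_ofPred_eq, hφ x] at hx ⊢; omega
  have h2 : ∀ x ∈ A, φ x ∈ A → φ x = x := fun x hx hy => by
    simp only [A, Set.mem_ofPred_eq, hφ x] at hx hy
    exact henc (by omega)
  have h3 : (φ '' A).ncard = A.ncard := Set.ncard_image_of_injective _ hφ.injective
  refine ⟨A, fun x => if h : x ∈ A then ⟨x, h⟩ else ⟨φ x, h1 x h⟩, fun a => by simp [a.2],
    fun x => ?_, fun x => ?_, ?_, fun hne => ?_⟩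
  · by_cases hx : x ∈ A
    · by_cases hy : φ x ∈ A
      · simp only [h2 x hx hy]
      · simp only [dif_pos hx, dif_neg hy, hφ x]
    · simp only [dif_neg hx, dif_pos (h1 x hx)]
  · by_cases hx : x ∈ A
    · left; simp only [dif_pos hx]
    · right; simp only [dif_neg hx]
  · have : (Set.univ : Set X) ⊆ A ∪ φ '' A := fun x _ => by
      by_cases hx : x ∈ A
      · exact Or.inl hx
      · exact Or.inr ⟨φ x, h1 x hx, hφ x⟩
    have h4 := (Set.ncard_le_ncard this).trans (Set.ncard_union_le _ _)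
    rw [Set.ncard_univ] at h4
    omega
  · have hd : Disjoint A (φ '' A) := by
      rw [Set.disjoint_left]
      rintro _ hx ⟨a, ha, rfl⟩
      exact hne a (h2 a ha hx)
    have h4 := Set.ncard_le_ncard (Set.subset_univ (A ∪ φ '' A))
    rw [Set.ncard_univ, Set.ncard_union_eq hd] at h4
    omega

lemma class_reps {V : Type} [Finite V] (D En : Set V) (hEn : En ⊆ D) (hne : En.Nonempty)
    (σ : V → V) (hσ : ∀ d ∈ D, d ∉ En → σ d ∈ D ∧ σ d ≠ d) :
    ∃ R : Set V, 2 * R.ncard + 1 ≤ D.ncard ∧ ∀ c : V → ZMod 2, (∀ d ∈ En, c d = 0) →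
      (∀ d ∈ D, d ∉ En → c d = c (σ d)) → (∀ a ∈ R, c a = 0) → ∀ d ∈ D, c d = 0 := by
  classical
  obtain ⟨enc, henc⟩ := exists_injective_nat V
  let s : V → V → Prop := Relation.EqvGen fun a b => a ∈ D ∧ a ∉ En ∧ b = σ a
  let R : Set V := {a | a ∈ D ∧ (∀ e ∈ En, ¬ s a e) ∧ ∀ b ∈ D, s a b → enc a ≤ enc b}
  have r1 : ∀ a ∈ R, a ∉ En := fun a ha h => ha.2.1 a h (Relation.EqvGen.refl a)
  have r2 : ∀ a ∈ R, s a (σ a) := fun a ha => Relation.EqvGen.rel _ _ ⟨ha.1, r1 a ha, rfl⟩
  have r3 : ∀ a ∈ R, ∀ b ∈ R, s a b → a = b := fun a ha b hb h =>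
    henc (le_antisymm (ha.2.2 b hb.1 h) (hb.2.2 a ha.1 (Relation.EqvGen.symm _ _ h)))
  refine ⟨R, ?_, fun c c1 c2 c3 d hd => ?_⟩
  · have hinj : Set.InjOn σ R := fun a ha b hb h => r3 a ha b hb
      (Relation.EqvGen.trans _ _ _ (r2 a ha) (Relation.EqvGen.symm _ _ (h ▸ r2 b hb)))
    have hd : Disjoint R (σ '' R) := by
      rw [Set.disjoint_left]
      rintro _ hx ⟨a, ha, rfl⟩
      exact (hσ a ha.1 (r1 a ha)).2 (r3 a ha _ hx (r2 a ha)).symm
    obtain ⟨e, he⟩ := hne
    have hsub : R ∪ σ '' R ⊂ D := by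
      refine ⟨?_, fun h => ?_⟩
      · rintro _ (hx | ⟨a, ha, rfl⟩)
        · exact hx.1
        · exact (hσ a ha.1 (r1 a ha)).1
      · rcases h (hEn he) with hx | ⟨a, ha, hx⟩
        · exact r1 e hx he
        · exact ha.2.1 e he (hx ▸ r2 a ha)
    have h4 := Set.ncard_lt_ncard hsub
    rw [Set.ncard_union_eq hd, hinj.ncard_image] at h4
    omega
  · have hs : ∀ a b, s a b → c a = c b := by
      intro a b h
      induction h with
      | rel a b h => rw [h.2.2]; exact c2 a h.1 h.2.1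
      | refl => rfl
      | symm _ _ _ ih => exact ih.symm
      | trans _ _ _ _ _ ih1 ih2 => exact ih1.trans ih2
    by_cases h : ∃ e ∈ En, s d e
    · obtain ⟨e, he, h⟩ := h
      rw [hs d e h, c1 e he]
    · obtain ⟨a, ha, hmin⟩ := Set.exists_min_image {b | b ∈ D ∧ s d b} enc (Set.toFinite _)
        ⟨d, hd, Relation.EqvGen.refl d⟩
      rw [hs d a ha.2]
      refine c3 a ⟨ha.1, fun e he h' => h ⟨e, he, Relation.EqvGen.trans _ _ _ ha.2 h'⟩,
        fun b hb h' => hmin b ⟨hb, Relation.EqvGen.trans _ _ _ ha.2 h'⟩⟩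

lemma card_le_ker {U W : Type} [AddCommGroup U] [AddCommGroup W] [Finite U] [Finite W]
    (L : U →+ W) : Nat.card U ≤ Nat.card W * Nat.card L.ker := by
  rw [AddSubgroup.card_eq_card_quotient_mul_card_addSubgroup L.ker,
    Nat.card_congr (QuotientAddGroup.quotientKerEquivRange L).toEquiv]
  exact Nat.mul_le_mul_right _ (Nat.card_le_card_of_injective _ Subtype.val_injective)

lemma card_fun_two {X : Type} [Finite X] (A : Set X) : Nat.card (A → ZMod 2) = 2 ^ A.ncard := by
  rw [Nat.card_fun, Nat.card_zmod, Nat.card_coe_set_eq]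

/-- The Euler characteristic count. -/
theorem count {V E T : Type} [Finite V] [Finite E] [Finite T]
    (iV : V → V) (hiV : Function.Involutive iV) (hiV' : ∀ v, iV v ≠ v)
    (rE : E → E) (hrE : Function.Involutive rE)
    (bT : T → T) (hbT : Function.Involutive bT) (hbT' : ∀ τ, bT τ ≠ τ)
    (src tgt : E → V) (D En : Set V) (hEn : En ⊆ D) (hne : En.Nonempty)
    (j : T → E) (hj : Function.Injective j) (hjD : ∀ τ, iV (src (j τ)) ∈ D)
    (hsrc : ∀ v, iV v ∉ D → ∃ e, src e = v)
    (σ : V → V) (hσ : ∀ d ∈ D, d ∉ En → σ d ∈ D ∧ σ d ≠ d)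
    (con : T → (E → ZMod 2) → (V → ZMod 2) → ZMod 2)
    (hadd : ∀ τ f f' g g', con τ (f + f') (g + g') = con τ f g + con τ f' g')
    (hcon : ∀ τ f g, (∀ e, f (rE e) = f e) → con (bT τ) f g = con τ f g)
    (hker : ∀ f g, (∀ e, f (rE e) = f e) → (∀ τ, con τ f g = 0) → ∃ u : V → ZMod 2,
      (∀ v, u (iV v) = u v) ∧ (∀ e, f e = u (src e) + u (tgt e)) ∧ (∀ d ∈ En, g d = u d) ∧
      ∀ d ∈ D, d ∉ En → g d + u d = g (σ d) + u (σ d)) : False := by
  classical
  obtain ⟨AE, repE, e1, e2, -, e4, -⟩ := inv_rep rE hrE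
  obtain ⟨AT, repT, -, -, t3, -, t5⟩ := inv_rep bT hbT
  obtain ⟨AV, repV, -, -, v3, -, v5⟩ := inv_rep iV hiV
  obtain ⟨R, hR, hRc⟩ := class_reps D En hEn hne σ hσ
  have t6 := t5 hbT'
  have v6 := v5 hiV'
  -- the count of edges
  have hE : Nat.card T + Nat.card V ≤ Nat.card E + D.ncard := by
    let B : Set E := {e | iV (src e) ∈ D}
    have a1 : Nat.card T ≤ B.ncard := by
      rw [← Nat.card_coe_set_eq]
      exact Nat.card_le_card_of_injective (fun τ => (⟨j τ, hjD τ⟩ : B))
        fun a b h => hj (congrArg Subtype.val h)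
    have a2 : Dᶜ ⊆ (fun e => iV (src e)) '' Bᶜ := by
      intro w hw
      obtain ⟨e, he⟩ := hsrc (iV w) (by rwa [hiV w])
      have : iV (src e) = w := by rw [he, hiV w]
      exact ⟨e, fun h => hw (this ▸ h), this⟩
    have a3 := (Set.ncard_le_ncard a2).trans (Set.ncard_image_le (Set.toFinite _))
    have a4 := Set.ncard_add_ncard_compl B
    have a5 := Set.ncard_add_ncard_compl D
    omega
  let F : (AE → ZMod 2) × (D → ZMod 2) → E → ZMod 2 := fun p e => p.1 (repE e)
  let G : (AE → ZMod 2) × (D → ZMod 2) → V → ZMod 2 :=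
    fun p v => if h : v ∈ D then p.2 ⟨v, h⟩ else 0
  have hF : ∀ p e, F p (rE e) = F p e := fun p e => by simp only [F, e2]
  let L : (AE → ZMod 2) × (D → ZMod 2) →+ (AT → ZMod 2) := AddMonoidHom.mk'
    (fun p τ => con τ (F p) (G p)) (fun p q => by
      funext τ
      have a : F (p + q) = F p + F q := rfl
      have b : G (p + q) = G p + G q := by
        funext v
        by_cases h : v ∈ D <;> simp [G, h]
      rw [a, b, hadd]; rfl)
  have hL : ∀ p : L.ker, ∀ τ, con τ (F p) (G p) = 0 := by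
    intro p τ
    have := congrFun (AddMonoidHom.mem_ker.1 p.2) (repT τ)
    change con (repT τ) (F p) (G p) = 0 at this
    rcases t3 τ with h | h
    · rwa [h] at this
    · rwa [h, hcon _ _ _ (hF p)] at this
  choose u u1 u2 u3 u4 using fun p : L.ker => hker _ _ (hF p) (hL p)
  let M : L.ker → (AV → ZMod 2) × (R → ZMod 2) :=
    fun p => (fun v => u p v, fun v => G p v + u p v)
  have two : ∀ a : ZMod 2, a + a = 0 := by decide
  have hM : Function.Injective M := by
    intro p q h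
    have hu : u p = u q := by
      funext v
      have := congrFun (congrArg Prod.fst h) (repV v)
      change u p (repV v) = u q (repV v) at this
      rcases v3 v with h' | h'
      · rwa [h'] at this
      · rwa [h', u1, u1] at this
    have hc := hRc (fun v => (G p v + u p v) - (G q v + u q v))
      (fun d hd => by simp only [u3 p d hd, u3 q d hd, two, sub_zero])
      (fun d hd hd' => by simp only [u4 p d hd hd', u4 q d hd hd'])
      (fun a ha => sub_eq_zero.2 (congrFun (congrArg Prod.snd h) ⟨a, ha⟩))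
    refine Subtype.ext (Prod.ext ?_ ?_)
    · funext a
      have a1 := u2 p a
      have a2 := u2 q a
      simp only [F, e1] at a1 a2
      rw [a1, a2, hu]
    · funext d
      have := hc d d.2
      simp only [G, dif_pos d.2, hu] at this
      simpa [sub_eq_zero] using this
  have c1 := card_le_ker L
  have c2 := Nat.card_le_card_of_injective M hM
  rw [Nat.card_prod, card_fun_two, card_fun_two] at c1 c2
  rw [card_fun_two] at c1
  have c3 := c1.trans (Nat.mul_le_mul_left _ c2)
  rw [← pow_add, ← pow_add, ← pow_add, Nat.pow_le_pow_iff_right (by norm_num)] at c3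
  omega

end Pool.Agent.MP_e97151_al
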