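import Pool.Agent.MP_e97151_al.Basic

/-! Ends of Cayley graphs versus almost invariant sets. -/

set_option autoImplicit false

namespace Pool.Agent.MP_e97151_al

theorem cayley_nbr_finite {G : Type} [Group G] (S : Finset G) (v : G) :
    ((SimpleGraph.fromRel (fun x y : G => ∃ s ∈ S, y = x * s)).neighborSet v).Finite := by
  refine ((S.finite_toSet.image (fun s => v * s)).union
    (S.finite_toSet.image (fun s => v * s⁻¹))).subset ?_
  intro w hw
  rw [SimpleGraph.mem_neighborSet, SimpleGraph.fromRel_adj] at hw
  rcases hw.2 with ⟨s, hs, rfl⟩ | ⟨s, hs, rfl⟩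
  · exact Or.inl ⟨s, hs, rfl⟩
  · exact Or.inr ⟨s, hs, by simp⟩

theorem cayley_preconnected {G : Type} [Group G] (S : Finset G)
    (hS : Subgroup.closure (S : Set G) = ⊤) :
    (SimpleGraph.fromRel (fun x y : G => ∃ s ∈ S, y = x * s)).Preconnected := by
  set Γ := SimpleGraph.fromRel (fun x y : G => ∃ s ∈ S, y = x * s) with hΓ
  have key : ∀ g : G, ∀ x : G, Γ.Reachable x (x * g) := by
    intro g
    have hg : g ∈ Subgroup.closure (S : Set G) := hS ▸ Subgroup.mem_top g
    induction hg using Subgroup.closure_induction with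
    | mem s hs =>
      intro x
      by_cases hx : x = x * s
      · rw [← hx]
      · apply SimpleGraph.Adj.reachable
        rw [hΓ, SimpleGraph.fromRel_adj]
        exact ⟨hx, Or.inl ⟨s, hs, rfl⟩⟩
    | one => intro x; rw [mul_one]
    | mul a b _ _ ha hb =>
      intro x
      rw [← mul_assoc]
      exact (ha x).trans (hb (x * a))
    | inv a _ ha =>
      intro x
      have := ha (x * a⁻¹)
      rw [inv_mul_cancel_right] at this
      exact this.symm
  intro x y
  have := key (x⁻¹ * y) x
  rwa [mul_inv_cancel_left] at this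

theorem exists_infinite_component {V : Type} (Γ : SimpleGraph V) [Γ.LocallyFinite]
    [Fact Γ.Preconnected] (K : Finset V) (Y : Set V) (hY : Y.Infinite)
    (hadj : ∀ v w : V, v ∉ (K : Set V) → w ∉ (K : Set V) → Γ.Adj v w → (v ∈ Y ↔ w ∈ Y)) :
    ∃ C : Γ.ComponentCompl (K : Set V), C.supp.Infinite ∧ C.supp ⊆ Y := by
  let f : Γ.ComponentCompl (K : Set V) → Prop :=
    SimpleGraph.ComponentCompl.lift (fun v _ => v ∈ Y)
      (fun v w hv hw h => propext (hadj v w hv hw h))
  have hf : ∀ (v : V) (hv : v ∉ (K : Set V)), f (Γ.componentComplMk hv) = (v ∈ Y) :=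
    fun _ _ => rfl
  by_contra hcon
  push Not at hcon
  apply hY
  have hfin : ((K : Set V) ∪ ⋃ C ∈ {C : Γ.ComponentCompl (K : Set V) | f C}, C.supp).Finite := by
    refine K.finite_toSet.union ((Set.toFinite _).biUnion ?_)
    intro C hC
    by_contra hinf
    apply hcon C hinf
    rintro v ⟨hv, rfl⟩
    exact hC
  refine hfin.subset ?_
  intro v hv
  by_cases hvK : v ∈ (K : Set V)
  · exact Or.inl hvK
  · right
    simp only [Set.mem_iUnion, Set.mem_ofPred_eq]
    exact ⟨Γ.componentComplMk hvK, hv, hvK, rfl⟩

theorem exists_section {V : Type} [Infinite V] (Γ : SimpleGraph V) [Γ.LocallyFinite]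
    [Fact Γ.Preconnected] (K : Finset V) (C : Γ.ComponentCompl (K : Set V))
    (hC : C.supp.Infinite) :
    ∃ e : (SimpleGraph.componentComplFunctor Γ).sections, e.val (Opposite.op K) = C := by
  classical
  set F := SimpleGraph.componentComplFunctor Γ with hF
  have hML : F.IsMittagLeffler :=
    F.isMittagLeffler_of_exists_finite_range
      (fun j => ⟨j, CategoryTheory.CategoryStruct.id j, Set.toFinite _⟩)
  have : ∀ j, Nonempty (F.toEventualRanges.obj j) := F.toEventualRanges_nonempty hML
  have hmem : C ∈ F.eventualRange (Opposite.op K) :=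
    (SimpleGraph.infinite_iff_in_eventualRange Γ (K := Opposite.op K) C).mp hC
  obtain ⟨s, hs⟩ := F.toEventualRanges.eval_section_surjective_of_surjective
    (F.surjective_toEventualRanges hML) (Opposite.op K) ⟨C, hmem⟩
  exact ⟨F.toEventualRangesSectionsEquiv s, congrArg Subtype.val hs⟩

/-- HINT. Two distinct sections differ at some finite `K`: components `C ≠ C'` of the complement,
both infinite (`SimpleGraph.end_componentCompl_infinite`), disjoint (`pairwise_disjoint`).
Take `Y = C.supp`. For `s ∈ S`: if exactly one of `y`, `y*s` is in `Y` then the other one lies in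
`K` (`ComponentCompl.mem_of_adj`). Finish with `aInv_of_gens`. -/
theorem ai_of_ends {G : Type} [Group G] (S : Finset G) (hS : Subgroup.closure (S : Set G) = ⊤)
    (h : Nontrivial ((SimpleGraph.componentComplFunctor
      (SimpleGraph.fromRel (fun x y : G => ∃ s ∈ S, y = x * s))).sections)) : AI G := by
  set Γ := SimpleGraph.fromRel (fun x y : G => ∃ s ∈ S, y = x * s) with hΓ
  obtain ⟨e, e', hne⟩ := h
  have hK : ∃ K : (Finset G)ᵒᵖ, e.val K ≠ e'.val K := by
    by_contra hcon
    push Not at hcon
    exact hne (Subtype.ext (funext hcon))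
  obtain ⟨K, hK⟩ := hK
  have h1 := SimpleGraph.end_componentCompl_infinite Γ e K
  have h2 := SimpleGraph.end_componentCompl_infinite Γ e' K
  have hd : Disjoint (e.val K).supp (e'.val K).supp :=
    SimpleGraph.ComponentCompl.pairwise_disjoint (G := Γ) (K := (K.unop : Set G)) hK
  refine ⟨(e.val K).supp, h1, h2.mono (Set.subset_compl_iff_disjoint_left.mpr hd), ?_⟩
  refine aInv_of_gens hS ?_
  intro s hs
  have hfin : ((K.unop : Set G) ∪ (fun y => y * s) ⁻¹' (K.unop : Set G)).Finite :=
    K.unop.finite_toSet.union (K.unop.finite_toSet.preimage (mul_left_injective s).injOn)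
  refine hfin.subset ?_
  intro y hy
  by_contra hcon
  simp only [Set.mem_union, Set.mem_preimage, not_or] at hcon
  apply hy
  by_cases hys : y = y * s
  · rw [← hys]
  have hadj : Γ.Adj y (y * s) := by
    rw [hΓ, SimpleGraph.fromRel_adj]
    exact ⟨hys, Or.inl ⟨s, hs, rfl⟩⟩
  constructor
  · intro hy
    exact SimpleGraph.ComponentCompl.mem_of_adj (G := Γ) (K := (K.unop : Set G)) (C := e.val K)
      y (y * s) hy hcon.2 hadj
  · intro hy
    exact SimpleGraph.ComponentCompl.mem_of_adj (G := Γ) (K := (K.unop : Set G)) (C := e.val K)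
      (y * s) y hy hcon.1 hadj.symm

/-- HINT. `K` := the finite set of all `y` with `¬ (y ∈ Y ↔ y * s ∈ Y)` for some `s ∈ S` together
with their translates `y * s`. Every component of the complement of `K` lies in `Y` or in its
complement. The graph is locally finite and preconnected, so there are finitely many components
(`componentComplFunctor_finite`); hence there is an infinite component inside `Y` and one inside the
complement. Infinite components are in the eventual range (`infinite_iff_in_eventualRange`), and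
every element of the eventual range is the value of a section (Mathlib CofilteredSystem:
`toEventualRangesSectionsEquiv`, `surjective_toEventualRanges`,
`eval_section_surjective_of_surjective`, Mittag-Leffler from finiteness). -/
theorem ends_of_ai {G : Type} [Group G] (S : Finset G) (hS : Subgroup.closure (S : Set G) = ⊤)
    (h : AI G) : Nontrivial ((SimpleGraph.componentComplFunctor
      (SimpleGraph.fromRel (fun x y : G => ∃ s ∈ S, y = x * s))).sections) := by
  classical
  obtain ⟨Y, hY, hY', hA⟩ := h
  set Γ := SimpleGraph.fromRel (fun x y : G => ∃ s ∈ S, y = x * s) with hΓ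
  have : Infinite G := Set.infinite_univ_iff.mp (hY.mono (Set.subset_univ _))
  let _ : Γ.LocallyFinite := fun v => (cayley_nbr_finite S v).fintype
  have : Fact Γ.Preconnected := ⟨cayley_preconnected S hS⟩
  have hB : (⋃ s ∈ (S : Set G), ({y | ¬ (y ∈ Y ↔ y * s ∈ Y)} : Set G)).Finite :=
    S.finite_toSet.biUnion (fun s _ => hA s)
  set K : Finset G := hB.toFinset with hKdef
  have hadj : ∀ v w : G, v ∉ (K : Set G) → w ∉ (K : Set G) → Γ.Adj v w → (v ∈ Y ↔ w ∈ Y) := by
    intro v w hv hw h
    rw [hΓ, SimpleGraph.fromRel_adj] at h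
    rw [hKdef, Set.Finite.coe_toFinset] at hv hw
    simp only [Set.mem_iUnion, Set.mem_ofPred_eq, not_exists, not_not] at hv hw
    rcases h.2 with ⟨s, hs, rfl⟩ | ⟨s, hs, rfl⟩
    · exact hv s hs
    · exact (hw s hs).symm
  obtain ⟨C, hC, hCY⟩ := exists_infinite_component Γ K Y hY hadj
  obtain ⟨D, hD, hDY⟩ := exists_infinite_component Γ K Yᶜ hY'
    (fun v w hv hw h => not_congr (hadj v w hv hw h))
  obtain ⟨e, he⟩ := exists_section Γ K C hC
  obtain ⟨e', he'⟩ := exists_section Γ K D hD
  refine ⟨e, e', fun hee => ?_⟩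
  have hCD : C = D := by rw [← he, ← he', hee]
  obtain ⟨v, hv⟩ := hC.nonempty
  exact hDY (hCD ▸ hv) (hCY hv)

/-- HINT. Choose for each `g` a representative `r g` of the right coset `K g` (finitely many values,
`r (k * g) = r g`), and put `Y' = {g | g * (r g)⁻¹ ∈ Y}`. For `g = k * t`, `t = r g`, one has
`g * h * (r (g*h))⁻¹ = k * (t * h * (r (t*h))⁻¹)` with finitely many possible second factors. -/
theorem ai_of_finiteIndex {G : Type} [Group G] (K : Subgroup G) [K.FiniteIndex] (h : AI K) :
    AI G := by
  classical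
  obtain ⟨Y, hY, hY', hA⟩ := h
  let r : G → G := fun g => (Quotient.mk (QuotientGroup.rightRel K) g).out
  have hr : ∀ g, g * (r g)⁻¹ ∈ K := fun g =>
    QuotientGroup.rightRel_apply.mp (Quotient.mk_out (s := QuotientGroup.rightRel K) g)
  have hr2 : ∀ g g' : G, g' * g⁻¹ ∈ K → r g = r g' := by
    intro g g' hg
    have : Quotient.mk (QuotientGroup.rightRel K) g = Quotient.mk (QuotientGroup.rightRel K) g' :=
      Quotient.sound (QuotientGroup.rightRel_apply.mpr hg)
    simp only [r, this]
  have hfin : (Set.range r).Finite := by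
    have : Finite (Quotient (QuotientGroup.rightRel K)) :=
      Finite.of_equiv _ (QuotientGroup.quotientRightRelEquivQuotientLeftRel K).symm
    refine (Set.finite_range (fun q : Quotient (QuotientGroup.rightRel K) => q.out)).subset ?_
    rintro _ ⟨g, rfl⟩
    exact ⟨_, rfl⟩
  let κ : G → K := fun g => ⟨g * (r g)⁻¹, hr g⟩
  have hκ : ∀ k : K, κ ((k : G) * r 1) = k := by
    intro k
    apply Subtype.ext
    have h1 : r 1 = r ((k : G) * r 1) := by
      apply hr2
      have := hr 1
      rw [one_mul] at this
      rw [inv_one, mul_one]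
      exact K.mul_mem k.2 (K.inv_mem_iff.mp this)
    show (k : G) * r 1 * (r ((k : G) * r 1))⁻¹ = k
    rw [← h1, mul_inv_cancel_right]
  have hsurj : Function.Surjective κ := fun k => ⟨_, hκ k⟩
  refine ⟨κ ⁻¹' Y, hY.preimage (by rw [hsurj.range_eq]; exact Set.subset_univ _), ?_, ?_⟩
  · rw [← Set.preimage_compl]
    exact hY'.preimage (by rw [hsurj.range_eq]; exact Set.subset_univ _)
  · intro h
    have hbig : (⋃ t ∈ Set.range r,
        (fun k : K => (k : G) * t) '' {k : K | ¬ (k ∈ Y ↔ k * κ (t * h) ∈ Y)}).Finite :=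
      hfin.biUnion (fun t _ => (hA _).image _)
    refine hbig.subset ?_
    intro g hg
    simp only [Set.mem_iUnion, Set.mem_image, Set.mem_ofPred_eq]
    refine ⟨r g, ⟨g, rfl⟩, κ g, ?_, ?_⟩
    · have h1 : r (r g * h) = r (g * h) := by
        apply hr2
        have := hr g
        simpa [mul_assoc] using this
      have h2 : κ g * κ (r g * h) = κ (g * h) := by
        apply Subtype.ext
        show g * (r g)⁻¹ * (r g * h * (r (r g * h))⁻¹) = g * h * (r (g * h))⁻¹
        rw [h1]
        group
      rw [h2]
      exact hg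
    · show g * (r g)⁻¹ * r g = g
      rw [inv_mul_cancel_right]

end Pool.Agent.MP_e97151_al
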