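import Mathlib

/-! Sanov's subgroup: a free subgroup of rank two and finite index in `SL(2,ℤ)`. -/

set_option autoImplicit false

namespace Pool.Agent.MP_e97151_al

open Matrix MatrixGroups
open scoped Pointwise

namespace Sanov

/-- nonzero integer vectors -/
abbrev V : Type := {v : Fin 2 → ℤ // v ≠ 0}

instance act : MulAction SL(2, ℤ) V where
  smul g v := ⟨g.1 *ᵥ v.1, fun h => v.2 (by
    have h2 : (g⁻¹).1 *ᵥ (g.1 *ᵥ v.1) = v.1 := by
      rw [Matrix.mulVec_mulVec, ← Matrix.SpecialLinearGroup.coe_mul, inv_mul_cancel,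
        Matrix.SpecialLinearGroup.coe_one, Matrix.one_mulVec]
    rw [← h2, h, Matrix.mulVec_zero])⟩
  one_smul v := Subtype.ext (Matrix.one_mulVec v.1)
  mul_smul g h v := Subtype.ext (Matrix.mulVec_mulVec v.1 g.1 h.1).symm

theorem smul_val (g : SL(2, ℤ)) (v : V) (i : Fin 2) :
    (g • v).1 i = g.1 i 0 * v.1 0 + g.1 i 1 * v.1 1 := by
  show (g.1 *ᵥ v.1) i = _
  simp [Matrix.mulVec, dotProduct, Fin.sum_univ_two]

theorem ne_zero (v : V) : v.1 0 ≠ 0 ∨ v.1 1 ≠ 0 := by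
  by_contra h
  push Not at h
  apply v.2
  funext i
  fin_cases i
  · exact h.1
  · exact h.2

def mA (k : ℤ) : SL(2, ℤ) := ⟨!![1, 2 * k; 0, 1], by simp [Matrix.det_fin_two]⟩
def mB (k : ℤ) : SL(2, ℤ) := ⟨!![1, 0; 2 * k, 1], by simp [Matrix.det_fin_two]⟩

theorem mA_add (k l : ℤ) : mA (k + l) = mA k * mA l := by
  ext i j
  fin_cases i <;> fin_cases j <;> simp [mA, Matrix.mul_apply, Fin.sum_univ_two]
  ring

theorem mB_add (k l : ℤ) : mB (k + l) = mB k * mB l := by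
  ext i j
  fin_cases i <;> fin_cases j <;> simp [mB, Matrix.mul_apply, Fin.sum_univ_two]
  ring

theorem mA_zero : mA 0 = 1 := by
  ext i j
  fin_cases i <;> fin_cases j <;> simp [mA]

theorem mB_zero : mB 0 = 1 := by
  ext i j
  fin_cases i <;> fin_cases j <;> simp [mB]

theorem mA_inv : (mA 1)⁻¹ = mA (-1) := by
  rw [inv_eq_iff_mul_eq_one, ← mA_add]; simpa using mA_zero

theorem mB_inv : (mB 1)⁻¹ = mB (-1) := by
  rw [inv_eq_iff_mul_eq_one, ← mB_add]; simpa using mB_zero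

theorem mA_smul (k : ℤ) (v : V) :
    (mA k • v).1 0 = v.1 0 + 2 * k * v.1 1 ∧ (mA k • v).1 1 = v.1 1 := by
  constructor <;> rw [smul_val] <;> simp [mA]

theorem mB_smul (k : ℤ) (v : V) :
    (mB k • v).1 0 = v.1 0 ∧ (mB k • v).1 1 = 2 * k * v.1 0 + v.1 1 := by
  constructor <;> rw [smul_val] <;> simp [mB]

def gen : Bool → SL(2, ℤ) := fun b => if b then mA 1 else mB 1

def X : Bool → Set V := fun b => if b then
  {v | v.1 1 = 0 ∨ (0 < v.1 1 ∧ v.1 1 ≤ v.1 0) ∨ (v.1 1 < 0 ∧ v.1 0 ≤ v.1 1)} else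
  {v | v.1 0 = 0 ∨ (0 < v.1 0 ∧ v.1 0 < v.1 1) ∨ (v.1 0 < 0 ∧ v.1 1 < v.1 0)}

def Y : Bool → Set V := fun b => if b then
  {v | (0 < v.1 1 ∧ v.1 0 < -v.1 1) ∨ (v.1 1 < 0 ∧ -v.1 1 < v.1 0)} else
  {v | (0 < v.1 0 ∧ v.1 1 ≤ -v.1 0) ∨ (v.1 0 < 0 ∧ -v.1 0 ≤ v.1 1)}

theorem inj : Function.Injective (FreeGroup.lift gen) := by
  refine FreeGroup.injective_lift_of_ping_pong gen X Y ?_ ?_ ?_ ?_ ?_ ?_
  · intro i
    cases i
    · exact ⟨⟨![0, 1], by simp⟩, by simp [X]⟩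
    · exact ⟨⟨![1, 0], by simp⟩, by simp [X]⟩
  · intro i j hij
    show Disjoint (X i) (X j)
    rw [Set.disjoint_left]
    intro v h1 h2
    have := ne_zero v
    cases i <;> cases j <;> simp [X] at hij h1 h2 <;> omega
  · intro i j hij
    show Disjoint (Y i) (Y j)
    rw [Set.disjoint_left]
    intro v h1 h2
    have := ne_zero v
    cases i <;> cases j <;> simp [Y] at hij h1 h2 <;> omega
  · intro i j
    rw [Set.disjoint_left]
    intro v h1 h2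
    have := ne_zero v
    cases i <;> cases j <;> simp [X, Y] at h1 h2 <;> omega
  · intro i
    rintro _ ⟨v, hv, rfl⟩
    have := ne_zero v
    cases i
    · obtain ⟨h0, h1⟩ := mB_smul 1 v
      have hv' : ¬ ((0 < v.1 0 ∧ v.1 1 ≤ -v.1 0) ∨ (v.1 0 < 0 ∧ -v.1 0 ≤ v.1 1)) := hv
      show (mB 1 • v).1 0 = 0 ∨ (0 < (mB 1 • v).1 0 ∧ (mB 1 • v).1 0 < (mB 1 • v).1 1) ∨
        ((mB 1 • v).1 0 < 0 ∧ (mB 1 • v).1 1 < (mB 1 • v).1 0)
      omega
    · obtain ⟨h0, h1⟩ := mA_smul 1 v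
      have hv' : ¬ ((0 < v.1 1 ∧ v.1 0 < -v.1 1) ∨ (v.1 1 < 0 ∧ -v.1 1 < v.1 0)) := hv
      show (mA 1 • v).1 1 = 0 ∨ (0 < (mA 1 • v).1 1 ∧ (mA 1 • v).1 1 ≤ (mA 1 • v).1 0) ∨
        ((mA 1 • v).1 1 < 0 ∧ (mA 1 • v).1 0 ≤ (mA 1 • v).1 1)
      omega
  · intro i
    rintro _ ⟨v, hv, rfl⟩
    have := ne_zero v
    cases i
    · obtain ⟨h0, h1⟩ := mB_smul (-1) v
      rw [← mB_inv] at h0 h1
      have hv' : ¬ (v.1 0 = 0 ∨ (0 < v.1 0 ∧ v.1 0 < v.1 1) ∨ (v.1 0 < 0 ∧ v.1 1 < v.1 0)) := hv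
      show (0 < ((mB 1)⁻¹ • v).1 0 ∧ ((mB 1)⁻¹ • v).1 1 ≤ -((mB 1)⁻¹ • v).1 0) ∨
        (((mB 1)⁻¹ • v).1 0 < 0 ∧ -((mB 1)⁻¹ • v).1 0 ≤ ((mB 1)⁻¹ • v).1 1)
      omega
    · obtain ⟨h0, h1⟩ := mA_smul (-1) v
      rw [← mA_inv] at h0 h1
      have hv' : ¬ (v.1 1 = 0 ∨ (0 < v.1 1 ∧ v.1 1 ≤ v.1 0) ∨ (v.1 1 < 0 ∧ v.1 0 ≤ v.1 1)) := hv
      show (0 < ((mA 1)⁻¹ • v).1 1 ∧ ((mA 1)⁻¹ • v).1 0 < -((mA 1)⁻¹ • v).1 1) ∨
        (((mA 1)⁻¹ • v).1 1 < 0 ∧ -((mA 1)⁻¹ • v).1 1 < ((mA 1)⁻¹ • v).1 0)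
      omega

theorem mA_mem (k : ℤ) : mA k ∈ (FreeGroup.lift gen).range := by
  have h1 : mA 1 ∈ (FreeGroup.lift gen).range := ⟨FreeGroup.of true, by simp [gen]⟩
  induction k using Int.induction_on with
  | zero => rw [mA_zero]; exact Subgroup.one_mem _
  | succ n ih => rw [mA_add]; exact Subgroup.mul_mem _ ih h1
  | pred n ih =>
    rw [sub_eq_add_neg, mA_add, ← mA_inv]
    exact Subgroup.mul_mem _ ih (Subgroup.inv_mem _ h1)

theorem mB_mem (k : ℤ) : mB k ∈ (FreeGroup.lift gen).range := by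
  have h1 : mB 1 ∈ (FreeGroup.lift gen).range := ⟨FreeGroup.of false, by simp [gen]⟩
  induction k using Int.induction_on with
  | zero => rw [mB_zero]; exact Subgroup.one_mem _
  | succ n ih => rw [mB_add]; exact Subgroup.mul_mem _ ih h1
  | pred n ih =>
    rw [sub_eq_add_neg, mB_add, ← mB_inv]
    exact Subgroup.mul_mem _ ih (Subgroup.inv_mem _ h1)

theorem mA_mul (k : ℤ) (g : SL(2, ℤ)) (j : Fin 2) :
    (mA k * g).1 0 j = g.1 0 j + 2 * k * g.1 1 j ∧ (mA k * g).1 1 j = g.1 1 j := by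
  constructor <;> simp [mA, Matrix.mul_apply, Fin.sum_univ_two]

theorem mB_mul (k : ℤ) (g : SL(2, ℤ)) (j : Fin 2) :
    (mB k * g).1 0 j = g.1 0 j ∧ (mB k * g).1 1 j = 2 * k * g.1 0 j + g.1 1 j := by
  constructor <;> simp [mB, Matrix.mul_apply, Fin.sum_univ_two]

theorem mem_range (n : ℕ) : ∀ g : SL(2, ℤ), (g.1 0 0).natAbs + (g.1 1 0).natAbs ≤ n →
    g.1 0 0 % 4 = 1 → g.1 0 1 % 2 = 0 → g.1 1 0 % 2 = 0 → g ∈ (FreeGroup.lift gen).range := by
  induction n with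
  | zero => intro g h ha _ _; omega
  | succ n ih =>
    intro g h ha hb hc
    have keyA : ∀ k : ℤ, (g.1 0 0 + 2 * k * g.1 1 0).natAbs + (g.1 1 0).natAbs ≤ n →
        (g.1 0 0 + 2 * k * g.1 1 0) % 4 = 1 → g ∈ (FreeGroup.lift gen).range := by
      intro k h1 h2
      obtain ⟨e0, e1⟩ := mA_mul k g 0
      obtain ⟨e2, e3⟩ := mA_mul k g 1
      have := ih (mA k * g) (by rw [e0, e1]; exact h1) (by rw [e0]; exact h2)
        (by rw [e2, mul_assoc]; omega) (by rw [e1]; exact hc)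
      exact (Subgroup.mul_mem_cancel_left _ (mA_mem k)).1 this
    have keyB : ∀ k : ℤ, (g.1 0 0).natAbs + (2 * k * g.1 0 0 + g.1 1 0).natAbs ≤ n →
        g ∈ (FreeGroup.lift gen).range := by
      intro k h1
      obtain ⟨e0, e1⟩ := mB_mul k g 0
      obtain ⟨e2, e3⟩ := mB_mul k g 1
      have := ih (mB k * g) (by rw [e0, e1]; exact h1) (by rw [e0]; exact ha)
        (by rw [e2]; exact hb) (by rw [e1, mul_assoc]; omega)
      exact (Subgroup.mul_mem_cancel_left _ (mB_mem k)).1 this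
    by_cases hc0 : g.1 1 0 = 0
    · have hdet := g.det_coe
      rw [Matrix.det_fin_two, hc0, mul_zero, sub_zero] at hdet
      have h1 : g.1 0 0 = 1 := by
        rcases Int.eq_one_or_neg_one_of_mul_eq_one hdet with h | h <;> omega
      have h2 : g.1 1 1 = 1 := by rw [h1, one_mul] at hdet; exact hdet
      have h3 : g = mA (g.1 0 1 / 2) := by
        ext i j
        fin_cases i <;> fin_cases j <;> simp [mA, h1, h2, hc0]
        omega
      rw [h3]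
      exact mA_mem _
    · by_cases hlt : (g.1 1 0).natAbs < (g.1 0 0).natAbs
      · by_cases hs : (0 < g.1 0 0 ∧ 0 < g.1 1 0) ∨ (g.1 0 0 < 0 ∧ g.1 1 0 < 0)
        · exact keyA (-1) (by omega) (by omega)
        · exact keyA 1 (by omega) (by omega)
      · by_cases hs : (0 < g.1 0 0 ∧ 0 < g.1 1 0) ∨ (g.1 0 0 < 0 ∧ g.1 1 0 < 0)
        · exact keyB (-1) (by omega)
        · exact keyB 1 (by omega)

theorem gamma_le : CongruenceSubgroup.Gamma 4 ≤ (FreeGroup.lift gen).range := by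
  intro g hg
  obtain ⟨h1, h2, h3, -⟩ := CongruenceSubgroup.Gamma_mem.1 hg
  have h1' : ((g.1 0 0 - 1 : ℤ) : ZMod 4) = 0 := by
    push_cast
    exact sub_eq_zero.2 h1
  rw [ZMod.intCast_zmod_eq_zero_iff_dvd] at h1' h2 h3
  have h2' : (4 : ℤ) ∣ g.1 0 1 := by exact_mod_cast h2
  have h3' : (4 : ℤ) ∣ g.1 1 0 := by exact_mod_cast h3
  have h1'' : (4 : ℤ) ∣ g.1 0 0 - 1 := by exact_mod_cast h1'
  exact mem_range _ g le_rfl (by omega) (by omega) (by omega)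

end Sanov

/-- Ping-pong on nonzero integer vectors; the range contains the principal congruence subgroup of
level four. -/
theorem sanov : ∃ f : FreeGroup Bool →* Matrix.SpecialLinearGroup (Fin 2) ℤ,
    Function.Injective f ∧ f.range.FiniteIndex :=
  ⟨FreeGroup.lift Sanov.gen, Sanov.inj, Subgroup.finiteIndex_of_le Sanov.gamma_le⟩

end Pool.Agent.MP_e97151_al
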