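import Pool.Agent.MP_e97151_al.SL2
import Pool.Agent.MP_e97151_al.Sanov

/-! Free groups of finite rank and the groups `Q * Z/2` are in the class `InC`. -/

set_option autoImplicit false

namespace Pool.Agent.MP_e97151_al

/-- permutations of `A` with a cocycle in `F` -/
@[ext] structure FreeWr (A F : Type) where
  p : Equiv.Perm A
  c : A → F

namespace FreeWr

variable {A F : Type} [Group F]

instance : Mul (FreeWr A F) := ⟨fun x y => ⟨x.p * y.p, fun a => x.c (y.p a) * y.c a⟩⟩

instance : One (FreeWr A F) := ⟨⟨1, fun _ => 1⟩⟩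

instance : Inv (FreeWr A F) := ⟨fun x => ⟨x.p⁻¹, fun a => (x.c (x.p⁻¹ a))⁻¹⟩⟩

@[simp] theorem mul_p (x y : FreeWr A F) : (x * y).p = x.p * y.p := rfl

@[simp] theorem mul_c (x y : FreeWr A F) (a : A) : (x * y).c a = x.c (y.p a) * y.c a := rfl

@[simp] theorem one_p : (1 : FreeWr A F).p = 1 := rfl

@[simp] theorem one_c (a : A) : (1 : FreeWr A F).c a = 1 := rfl

@[simp] theorem inv_p (x : FreeWr A F) : x⁻¹.p = x.p⁻¹ := rfl

@[simp] theorem inv_c (x : FreeWr A F) (a : A) : x⁻¹.c a = (x.c (x.p⁻¹ a))⁻¹ := rfl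

instance : Group (FreeWr A F) :=
  Group.ofLeftAxioms
    (fun x y z => FreeWr.ext (by simp [mul_assoc]) (funext fun a => by simp [mul_assoc]))
    (fun x => FreeWr.ext (by simp) (funext fun a => by simp))
    (fun x => FreeWr.ext (by simp) (funext fun a => by simp))

/-- the underlying permutation -/
def pr (A F : Type) [Group F] : FreeWr A F →* Equiv.Perm A := MonoidHom.mk' (·.p) mul_p

/-- permutations with trivial cocycle -/
def sec (A F : Type) [Group F] : Equiv.Perm A →* FreeWr A F :=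
  MonoidHom.mk' (fun σ => ⟨σ, fun _ => 1⟩) fun _ _ =>
    FreeWr.ext rfl (funext fun _ => (mul_one _).symm)

@[simp] theorem sec_p (σ : Equiv.Perm A) : (sec A F σ).p = σ := rfl

@[simp] theorem sec_c (σ : Equiv.Perm A) (a : A) : (sec A F σ).c a = 1 := rfl

variable {V : Type} [Group V]

theorem mem_ker (ρ : V →* FreeWr A F) (v : V) : v ∈ ((pr A F).comp ρ).ker ↔ (ρ v).p = 1 := Iff.rfl

/-- the cocycle at a point, on the kernel of the permutation action -/
def ev (ρ : V →* FreeWr A F) (a : A) : ((pr A F).comp ρ).ker →* F :=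
  MonoidHom.mk' (fun v => (ρ v).c a) fun v w => by
    rw [Subgroup.coe_mul, map_mul, mul_c, (mem_ker ρ w).1 w.2]
    rfl

theorem ev_apply (ρ : V →* FreeWr A F) (a : A) (v : ((pr A F).comp ρ).ker) :
    ev ρ a v = (ρ v).c a := rfl

end FreeWr

/-- the homomorphism from the group of order two given by an involution -/
def freeInvol {V : Type} [Group V] (t : V) (ht : t * t = 1) : Multiplicative (ZMod 2) →* V :=
  MonoidHom.mk' (fun x => if x = 1 then 1 else t) (by
    have h : ∀ x : Multiplicative (ZMod 2), x = 1 ∨ x = Multiplicative.ofAdd 1 := by decide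
    have h1 : (Multiplicative.ofAdd (1 : ZMod 2)) * Multiplicative.ofAdd 1 = 1 := by decide
    have h2 : (Multiplicative.ofAdd (1 : ZMod 2)) ≠ 1 := by decide
    intro x y
    rcases h x with rfl | rfl <;> rcases h y with rfl | rfl <;> simp only [h1, one_mul, mul_one] <;>
      simp [h2, ht])

theorem freeInvol_apply {V : Type} [Group V] (t : V) (ht : t * t = 1) :
    freeInvol t ht (Multiplicative.ofAdd 1) = t :=
  if_neg (c := Multiplicative.ofAdd (1 : ZMod 2) = 1) (t := (1 : V)) (by decide)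

theorem inC_free2 : InC (FreeGroup Bool) := by
  obtain ⟨f, hf, hf'⟩ := sanov
  exact (inC_SL2.subgroup f.range).retract (MonoidHom.ofInjective hf).toMonoidHom
    (MonoidHom.ofInjective hf).symm.toMonoidHom fun w => (MonoidHom.ofInjective hf).symm_apply_apply w

/-- HINT. For `n > 0` let `a`, `b` act on `ZMod n × FreeGroup (ZMod n)` by `a (i,w) = (i, of i * w)`,
`b (i,w) = (i+1,w)`; the action commutes with right multiplication on the second factor. `U` = the
elements that fix the first coordinate `0` (kernel of the map to `ZMod n`, finite index),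
`r : U →* FreeGroup _` the second coordinate of `g (0,1)`, `i (of j) = b^{-j} a b^{j}`; `r ∘ i = id`.
Use `InC.subgroup` and `InC.retract`; a finite `X` embeds in some `ZMod n` and `FreeGroup X` is then a
retract of `FreeGroup (ZMod n)`. -/
theorem inC_free (X : Type) [Finite X] : InC (FreeGroup X) := by
  obtain ⟨ε⟩ : Nonempty (ZMod (Nat.card X + 1) ≃ Option X) := Finite.card_eq.1 (by simp)
  let ρ : FreeGroup Bool →* FreeWr (ZMod (Nat.card X + 1)) (FreeGroup X) := FreeGroup.lift fun e =>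
    if e then FreeWr.sec _ _ (Equiv.addRight 1) else ⟨1, fun a => (ε a).elim 1 FreeGroup.of⟩
  let t : X → FreeGroup Bool := fun x => FreeGroup.of true ^ (ε.symm (some x)).val
  have ht : ∀ x, ρ (t x) = FreeWr.sec _ _ (Equiv.addRight (ε.symm (some x))) := fun x => by
    simp only [t, ρ, map_pow, FreeGroup.lift_apply_of, if_true]
    rw [← map_pow]
    congr 1
    ext a
    simp
  have ha : ρ (FreeGroup.of false) = ⟨1, fun a => (ε a).elim 1 FreeGroup.of⟩ := by simp [ρ]
  refine (inC_free2.subgroup ((FreeWr.pr _ _).comp ρ).ker).retract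
    (FreeGroup.lift fun x => ⟨(t x)⁻¹ * FreeGroup.of false * t x, ?_⟩) (FreeWr.ev ρ 0) fun w => ?_
  · rw [FreeWr.mem_ker, map_mul, map_mul, map_inv, ha]
    simp
  · change ((FreeWr.ev ρ 0).comp _) w = MonoidHom.id _ w
    congr 1
    ext x
    rw [MonoidHom.comp_apply, FreeGroup.lift_apply_of, FreeWr.ev_apply]
    dsimp only
    rw [map_mul, map_mul, map_inv, ha, ht]
    simp

/-- HINT. `V = VV Q` acts on `(Q × Bool) × FreeGroup Q` by `q ((a,e),w) = ((q a,e),w)`,
`z ((a,false),w) = ((a,true), of a * w)`, `z ((a,true),w) = ((a,false), (of a)⁻¹ * w)`, commuting with right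
multiplication. `V0` = kernel of the induced action on the finite set `Q × Bool`.
`i : V0 →* FreeGroup Q` = second coordinate of `v ((1,false),1)`; `κ (of a) = z a⁻¹ z a ∈ V0`.
`Θ ((a,false),w) = a * κ w`, `Θ ((a,true),w) = a * z * κ w` satisfies `Θ (v y) = v Θ y`, so `κ (i v) = v`.
Use `InC.retract` and `InC.ext`. -/
theorem inC_VV (Q : Type) [Group Q] [Finite Q] : InC (VV Q) := by
  let Z : FreeWr (Q × Bool) (FreeGroup Q) := ⟨Equiv.prodCongr (Equiv.refl _) Equiv.boolNot,
    fun y => if y.2 then (FreeGroup.of y.1)⁻¹ else FreeGroup.of y.1⟩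
  have hZ : Z * Z = 1 := by
    refine FreeWr.ext (Equiv.ext ?_) (funext ?_) <;> rintro ⟨a, _ | _⟩ <;> simp [Z]
  let L : Q →* Equiv.Perm (Q × Bool) := MonoidHom.mk'
    (fun q => Equiv.prodCongr (Equiv.mulLeft q) (Equiv.refl _)) fun q q' =>
      Equiv.ext fun y => by simp [Prod.map]
  let ρ : VV Q →* FreeWr (Q × Bool) (FreeGroup Q) :=
    Monoid.Coprod.lift ((FreeWr.sec _ _).comp L) (freeInvol Z hZ)
  have hz : ρ (zz Q) = Z := freeInvol_apply Z hZ
  have hq : ∀ q : Q, ρ (Monoid.Coprod.inl q) = FreeWr.sec _ _ (L q) := fun q => rfl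
  let κ : FreeGroup Q →* VV Q := FreeGroup.lift fun a =>
    zz Q * (Monoid.Coprod.inl a)⁻¹ * zz Q * Monoid.Coprod.inl a
  let θ : Q × Bool → VV Q := fun y =>
    if y.2 then Monoid.Coprod.inl y.1 * zz Q else Monoid.Coprod.inl y.1
  have hzz : ∀ v : VV Q, zz Q * (zz Q * v) = v := fun v => by
    rw [← mul_assoc, zz_mul_self, one_mul]
  have hzi : (zz Q)⁻¹ = zz Q := inv_eq_of_mul_eq_one_right (zz_mul_self Q)
  have key : ∀ (v : VV Q) y, v * θ y = θ ((ρ v).p y) * κ ((ρ v).c y) := by
    intro v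
    induction v using Monoid.Coprod.induction_on with
    | inl q =>
      rintro ⟨a, _ | _⟩ <;> simp [hq, L, θ, mul_assoc]
    | inr x =>
      have h : ∀ x : Multiplicative (ZMod 2), x = 1 ∨ x = Multiplicative.ofAdd 1 := by decide
      rcases h x with rfl | rfl
      · simp
      · change ∀ y, zz Q * θ y = θ ((ρ (zz Q)).p y) * κ ((ρ (zz Q)).c y)
        rw [hz]
        rintro ⟨a, _ | _⟩ <;> simp [Z, θ, κ, mul_assoc, hzz, hzi]
    | mul v w hv hw =>
      intro y
      rw [mul_assoc, hw, ← mul_assoc, hv, map_mul, FreeWr.mul_p, FreeWr.mul_c, map_mul, mul_assoc]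
      rfl
  have hκ : ∀ w, κ w ∈ ((FreeWr.pr _ _).comp ρ).ker := by
    intro w
    change (((FreeWr.pr _ _).comp ρ).comp κ) w = (1 : FreeGroup Q →* _) w
    congr 1
    refine FreeGroup.ext_hom _ _ fun a => ?_
    change (ρ (κ (FreeGroup.of a))).p = 1
    simp only [κ, FreeGroup.lift_apply_of, map_mul, map_inv, hz, hq]
    refine Equiv.ext ?_
    rintro ⟨b, e⟩
    simp [Z, L]
  refine InC.ext ((FreeWr.pr _ _).comp ρ).ker ((inC_free Q).retract (FreeWr.ev ρ (1, false))
    (κ.codRestrict _ hκ) fun v => Subtype.ext ?_)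
  have := key v (1, false)
  rw [(FreeWr.mem_ker ρ v).1 v.2] at this
  simpa [θ, FreeWr.ev_apply] using this.symm

end Pool.Agent.MP_e97151_al
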