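import Pool.Agent.MP_e97151_al.Basic

/-! Grothendieck pairs and closure properties of the class `InC`. -/

set_option autoImplicit false

namespace Pool.Agent.MP_e97151_al

variable {G H : Type} [Group G] [Group H]

/-- the permutation representation on `Option X` fixing `none` -/
def optHom (X : Type) : Equiv.Perm X →* Equiv.Perm (Option X) where
  toFun e := Equiv.optionCongr e
  map_one' := by
    ext x
    cases x <;> simp
  map_mul' a b := by
    ext x
    cases x <;> simp

theorem optHom_none (X : Type) (e : Equiv.Perm X) : optHom X e none = none := by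
  simp [optHom]

theorem optHom_some (X : Type) (e : Equiv.Perm X) (x : X) : optHom X e (some x) = some (e x) := by
  simp [optHom]

/-- a finite index subgroup containing the image of a Grothendieck pair is everything -/
theorem GP.eq_top {u : G →* H} (hu : GP u) (K : Subgroup H) [K.FiniteIndex]
    (hK : ∀ g, u g ∈ K) (h : H) : h ∈ K := by
  classical
  let X := H ⧸ K
  let x0 : X := ((1 : H) : H ⧸ K)
  let α : H →* Equiv.Perm (Option X) := (optHom X).comp (MulAction.toPermHom H X)
  let σ : Equiv.Perm (Option X) := Equiv.swap none (some x0)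
  let β : H →* Equiv.Perm (Option X) := (MulAut.conj σ).toMonoidHom.comp α
  have hfix : ∀ k : H, α k (some x0) = some x0 ↔ k ∈ K := by
    intro k
    have : α k (some x0) = some ((k : H) : H ⧸ K) := by
      simp only [α, MonoidHom.comp_apply, optHom_some, MulAction.toPermHom_apply,
        MulAction.toPerm_apply, x0]
      rw [MulAction.Quotient.smul_coe, smul_eq_mul, mul_one]
    rw [this, Option.some_inj, eq_comm, QuotientGroup.eq]
    simp
  have hnone : ∀ k : H, α k none = none := fun k => optHom_none _ _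
  have hαβ : α = β := by
    apply (hu (Equiv.Perm (Option X))).1
    ext1 g
    show α (u g) = σ * α (u g) * σ⁻¹
    have h1 := (hfix (u g)).2 (hK g)
    have h2 := hnone (u g)
    have h3 : α (u g) * σ * (α (u g))⁻¹ = σ := by
      simp only [σ]
      rw [← Equiv.swap_apply_apply, h1, h2]
    have h4 : α (u g) * σ = σ * α (u g) := by
      conv_rhs => rw [← h3]
      group
    rw [← h4]
    group
  have h5 : α h = σ * α h * σ⁻¹ := by
    conv_lhs => rw [hαβ]
    rfl
  have h6 : α h * σ = σ * α h := by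
    conv_lhs => rw [h5]
    group
  have h7 := congrArg (fun e : Equiv.Perm (Option X) => e none) h6
  simp only [Equiv.Perm.mul_apply, hnone, σ, Equiv.swap_apply_left] at h7
  exact (hfix h).1 h7

theorem GP.dense {u : G →* H} (hu : GP u) (N : Subgroup H) [N.Normal] [N.FiniteIndex] (h : H) :
    ∃ g : G, (u g)⁻¹ * h ∈ N := by
  have : (u.range ⊔ N).FiniteIndex := Subgroup.finiteIndex_of_le le_sup_right
  have h1 : h ∈ u.range ⊔ N :=
    hu.eq_top (u.range ⊔ N) (fun g => Subgroup.mem_sup_left (MonoidHom.mem_range.2 ⟨g, rfl⟩)) h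
  obtain ⟨y, ⟨g, rfl⟩, z, hz, rfl⟩ := Subgroup.mem_sup_of_normal_right.1 h1
  exact ⟨g, by simpa using hz⟩

theorem GP.dense' {u : G →* H} (hu : GP u) (N : Subgroup H) [N.FiniteIndex] (h : H) :
    ∃ g : G, (u g)⁻¹ * h ∈ N := by
  obtain ⟨g, hg⟩ := hu.dense N.normalCore h
  exact ⟨g, N.normalCore_le hg⟩

theorem GP.uniq {u : G →* H} (hu : GP u) {V : Type} [Group V] (hV : RF V) (α β : H →* V)
    (h : α.comp u = β.comp u) : α = β := by
  ext x
  by_contra hx
  have h1 : (α x)⁻¹ * β x ≠ 1 := fun e => hx (inv_mul_eq_one.1 e)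
  obtain ⟨N, hN, hN', hx'⟩ := hV _ h1
  have h2 : (QuotientGroup.mk' N).comp α = (QuotientGroup.mk' N).comp β := by
    apply (hu (V ⧸ N)).1
    show ((QuotientGroup.mk' N).comp α).comp u = ((QuotientGroup.mk' N).comp β).comp u
    rw [MonoidHom.comp_assoc, MonoidHom.comp_assoc, h]
  have h3 : ((α x : V) : V ⧸ N) = (β x : V) := DFunLike.congr_fun h2 x
  exact hx' (QuotientGroup.eq.1 h3)

theorem exists_hom_of_ker {A B C D : Type} [Group A] [Group B] [Group C] [Group D]
    (f : A →* B) (α : A →* C) (hk : ∀ a, f a = 1 → α a = 1) (η : D →* B)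
    (hη : ∀ d, ∃ a, f a = η d) : ∃ ψ : D →* C, ∀ d a, f a = η d → ψ d = α a := by
  classical
  choose s hs using hη
  have key : ∀ a b, f a = f b → α a = α b := by
    intro a b hab
    have := hk (a⁻¹ * b) (by rw [map_mul, map_inv, hab, inv_mul_cancel])
    rw [map_mul, map_inv] at this
    exact inv_mul_eq_one.1 this
  refine ⟨MonoidHom.mk' (fun d => α (s d)) ?_, ?_⟩
  · intro a b
    show α (s (a * b)) = α (s a) * α (s b)
    rw [← map_mul]
    apply key
    rw [map_mul, hs, hs, hs, map_mul]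
  · intro d a ha
    show α (s d) = α a
    apply key
    rw [hs, ha]

theorem finiteIndex_map_subtype {V : Type} [Group V] (U : Subgroup V) [U.FiniteIndex]
    (K : Subgroup U) [K.FiniteIndex] : (K.map U.subtype).FiniteIndex :=
  ⟨by
    rw [Subgroup.index_map_subtype]
    exact mul_ne_zero Subgroup.FiniteIndex.index_ne_zero Subgroup.FiniteIndex.index_ne_zero⟩

theorem GP.sub {u : G →* H} (hu : GP u) (G0 : Subgroup G) [G0.Normal] [G0.FiniteIndex] :
    ∃ H0 : Subgroup H, H0.Normal ∧ H0.FiniteIndex ∧ (∀ g, u g ∈ H0 ↔ g ∈ G0) ∧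
      ∃ u0 : G0 →* H0, (∀ g : G0, (u0 g : H) = u g) ∧ GP u0 := by
  obtain ⟨θ, hθ⟩ := (hu (G ⧸ G0)).2 (QuotientGroup.mk' G0)
  have hθ' : ∀ g, θ (u g) = (g : G ⧸ G0) := fun g => DFunLike.congr_fun hθ g
  have hmem : ∀ g, u g ∈ θ.ker ↔ g ∈ G0 := by
    intro g
    rw [MonoidHom.mem_ker, hθ', QuotientGroup.eq_one_iff]
  have hfi : θ.ker.FiniteIndex := Subgroup.finiteIndex_ker θ
  let u0 : G0 →* θ.ker := (u.comp G0.subtype).codRestrict θ.ker (fun g => (hmem g).2 g.2)
  have hu0 : ∀ g : G0, (u0 g : H) = u g := fun g => rfl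
  refine ⟨θ.ker, inferInstance, hfi, hmem, u0, hu0, ?_⟩
  intro Q _ _
  constructor
  · intro α β hαβ
    have hαβ' : ∀ g, α (u0 g) = β (u0 g) := fun g => DFunLike.congr_fun hαβ g
    have : α.ker.FiniteIndex := Subgroup.finiteIndex_ker α
    have : β.ker.FiniteIndex := Subgroup.finiteIndex_ker β
    have := finiteIndex_map_subtype θ.ker (α.ker ⊓ β.ker)
    ext h
    obtain ⟨g, k, hk, hkg⟩ := hu.dense' ((α.ker ⊓ β.ker).map θ.ker.subtype) h
    have hk' : (k : H) = (u g)⁻¹ * h := hkg
    have hg : u g ∈ θ.ker := by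
      have : u g = h * (k : H)⁻¹ := by rw [hk']; group
      rw [this]
      exact θ.ker.mul_mem h.2 (θ.ker.inv_mem k.2)
    have hh : h = u0 ⟨g, (hmem g).1 hg⟩ * k := by
      apply Subtype.ext
      show (h : H) = u g * k
      rw [hk']; group
    have h1 : α k = 1 := hk.1
    have h2 : β k = 1 := hk.2
    rw [hh, map_mul, map_mul, hαβ', h1, h2]
  · intro α
    have : α.ker.FiniteIndex := Subgroup.finiteIndex_ker α
    have := finiteIndex_map_subtype G0 α.ker
    let M : Subgroup G := (α.ker.map G0.subtype).normalCore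
    have hM : M ≤ G0 := (Subgroup.normalCore_le _).trans (Subgroup.map_subtype_le _)
    obtain ⟨η, hη⟩ := (hu (G ⧸ M)).2 (QuotientGroup.mk' M)
    have hη' : ∀ g, η (u g) = (g : G ⧸ M) := fun g => DFunLike.congr_fun hη g
    let π : G ⧸ M →* G ⧸ G0 := QuotientGroup.map M G0 (MonoidHom.id G) hM
    have hπ : ∀ g : G, π (g : G ⧸ M) = (g : G ⧸ G0) := fun g => rfl
    have hπη : π.comp η = θ := by
      apply (hu (G ⧸ G0)).1
      ext g
      show π (η (u g)) = θ (u g)
      rw [hη', hθ', hπ]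
    obtain ⟨ψ, hψ⟩ := exists_hom_of_ker ((QuotientGroup.mk' M).comp G0.subtype) α
      (by
        intro a ha
        have ha' : ((a : G) : G ⧸ M) = 1 := ha
        obtain ⟨b, hb, hba⟩ := Subgroup.normalCore_le _ ((QuotientGroup.eq_one_iff _).1 ha')
        have : b = a := Subtype.ext hba
        exact this ▸ hb)
      (η.comp θ.ker.subtype)
      (by
        intro d
        obtain ⟨g, hg⟩ := QuotientGroup.mk_surjective (η d)
        have h1 : (g : G ⧸ G0) = 1 := by
          rw [← hπ, hg]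
          have : π (η d) = θ d := DFunLike.congr_fun hπη (d : H)
          rw [this]
          exact d.2
        exact ⟨⟨g, (QuotientGroup.eq_one_iff _).1 h1⟩, hg⟩)
    refine ⟨ψ, ?_⟩
    ext g
    exact hψ (u0 g) g (hη' g).symm

theorem InC.retract {V W : Type} [Group V] [Group W] (hV : InC V) (i : W →* V) (r : V →* W)
    (hri : ∀ w, r (i w) = w) : InC W := by
  refine ⟨hV.1.of_injective i (Function.LeftInverse.injective hri), ?_⟩
  intro G H _ _ u hH hu φ
  obtain ⟨ψ, hψ⟩ := hV.2 G H u hH hu (i.comp φ)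
  refine ⟨r.comp ψ, ?_⟩
  ext g
  have : ψ (u g) = i (φ g) := DFunLike.congr_fun hψ g
  show r (ψ (u g)) = φ g
  rw [this, hri]

theorem InC.subgroup {V : Type} [Group V] (hV : InC V) (U : Subgroup V) [U.FiniteIndex] :
    InC U := by
  refine ⟨hV.1.of_injective U.subtype U.subtype_injective, ?_⟩
  intro G H _ _ u hH hu φ
  obtain ⟨ψ, hψ⟩ := hV.2 G H u hH hu (U.subtype.comp φ)
  have hψ' : ∀ g, ψ (u g) = φ g := fun g => DFunLike.congr_fun hψ g
  have := finiteIndex_comap U ψ
  have hmem : ∀ h, ψ h ∈ U := fun h =>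
    hu.eq_top (U.comap ψ) (fun g => by
      show ψ (u g) ∈ U
      rw [hψ']
      exact (φ g).2) h
  refine ⟨ψ.codRestrict U hmem, ?_⟩
  ext g
  exact hψ' g

theorem RF.ext {V : Type} [Group V] (V0 : Subgroup V) [V0.Normal] [V0.FiniteIndex]
    (hV : RF V0) : RF V := by
  intro g hg
  by_cases h0 : g ∈ V0
  · obtain ⟨N, _, hN', hgN⟩ := hV ⟨g, h0⟩ (fun e => hg (congrArg Subtype.val e))
    have := finiteIndex_map_subtype V0 N
    refine ⟨(N.map V0.subtype).normalCore, inferInstance, inferInstance, fun hm => hgN ?_⟩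
    obtain ⟨b, hb, hbg⟩ := Subgroup.normalCore_le _ hm
    have : b = ⟨g, h0⟩ := Subtype.ext hbg
    exact this ▸ hb
  · exact ⟨V0, inferInstance, inferInstance, h0⟩

theorem InC.ext {V : Type} [Group V] (V0 : Subgroup V) [V0.Normal] [V0.FiniteIndex]
    (hV : InC V0) : InC V := by
  have hRF : RF V := RF.ext V0 hV.1
  refine ⟨hRF, ?_⟩
  intro G H _ _ u hH hu φ
  have := finiteIndex_comap V0 φ
  obtain ⟨H0, hn, hfi, hmem, u0, hu0, hgp⟩ := hu.sub (V0.comap φ)
  have : Group.FG H0 := Subgroup.fg_of_index_ne_zero H0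
  let φ0 : (V0.comap φ) →* V0 :=
    (φ.comp (V0.comap φ).subtype).codRestrict V0 (fun g => g.2)
  obtain ⟨ψ0, hψ0⟩ := hV.2 _ H0 u0 inferInstance hgp φ0
  let Ψ : H0 →* V := V0.subtype.comp ψ0
  have hΨ : ∀ g : V0.comap φ, Ψ (u0 g) = φ g := by
    intro g
    have : ψ0 (u0 g) = φ0 g := DFunLike.congr_fun hψ0 g
    show ((ψ0 (u0 g) : V0) : V) = φ g
    rw [this]
    rfl
  have key : ∀ (g : G) (h0 : H0),
      Ψ (MulAut.conjNormal (u g) h0) = φ g * Ψ h0 * (φ g)⁻¹ := by
    intro g
    have := hgp.uniq hRF (Ψ.comp (MulAut.conjNormal (u g)).toMonoidHom)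
      ((MulAut.conj (φ g)).toMonoidHom.comp Ψ) (by
        ext k
        show Ψ (MulAut.conjNormal (u g) (u0 k)) = φ g * Ψ (u0 k) * (φ g)⁻¹
        have e : MulAut.conjNormal (u g) (u0 k) = u0 (MulAut.conjNormal g k) := by
          apply Subtype.ext
          rw [MulAut.conjNormal_apply, hu0, hu0, MulAut.conjNormal_apply, map_mul, map_mul, map_inv]
        rw [e, hΨ, hΨ, MulAut.conjNormal_apply, map_mul, map_mul, map_inv])
    exact fun h0 => DFunLike.congr_fun this h0
  let R : Subgroup (H × V) :=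
    { carrier := {p | ∃ (g : G) (h0 : H0), p.1 = h0 * u g ∧ p.2 = Ψ h0 * φ g}
      one_mem' := ⟨1, 1, by simp, by simp⟩
      mul_mem' := by
        rintro ⟨a, v⟩ ⟨b, w⟩ ⟨g, h0, ha, hv⟩ ⟨g', h0', hb, hw⟩
        refine ⟨g * g', h0 * MulAut.conjNormal (u g) h0', ?_, ?_⟩
        · show a * b = _
          simp only at ha hb
          rw [ha, hb, Subgroup.coe_mul, MulAut.conjNormal_apply, map_mul]
          group
        · show v * w = _
          simp only at hv hw
          rw [hv, hw, map_mul, key, map_mul]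
          group
      inv_mem' := by
        rintro ⟨a, v⟩ ⟨g, h0, ha, hv⟩
        refine ⟨g⁻¹, MulAut.conjNormal (u g⁻¹) h0⁻¹, ?_, ?_⟩
        · show a⁻¹ = _
          simp only at ha
          rw [ha, MulAut.conjNormal_apply, map_inv, Subgroup.coe_inv]
          group
        · show v⁻¹ = _
          simp only at hv
          rw [hv, key, map_inv, map_inv]
          group }
  obtain ⟨ψ, hψ⟩ := exists_hom_of_ker ((MonoidHom.fst H V).comp R.subtype)
    ((MonoidHom.snd H V).comp R.subtype)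
    (by
      rintro ⟨⟨a, v⟩, g, h0, ha, hv⟩ h1
      have h1' : a = 1 := h1
      show v = 1
      simp only at ha hv
      have h2 : u g = (h0 : H)⁻¹ := by
        rw [h1'] at ha
        exact (inv_eq_of_mul_eq_one_right ha.symm).symm
      have hg : g ∈ V0.comap φ := (hmem g).1 (h2 ▸ H0.inv_mem h0.2)
      have h3 : u0 ⟨g, hg⟩ = h0⁻¹ := Subtype.ext (by rw [hu0]; exact h2)
      have h4 := hΨ ⟨g, hg⟩
      rw [h3, map_inv] at h4
      rw [hv]
      have h5 : φ g = (Ψ h0)⁻¹ := h4.symm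
      rw [h5, mul_inv_cancel])
    (MonoidHom.id H)
    (by
      intro h
      obtain ⟨g, hg⟩ := hu.dense H0 h
      have hg' : h * (u g)⁻¹ ∈ H0 := by
        have := hn.conj_mem _ hg (u g)
        have e : u g * ((u g)⁻¹ * h) * (u g)⁻¹ = h * (u g)⁻¹ := by group
        rwa [e] at this
      refine ⟨⟨(h, Ψ ⟨_, hg'⟩ * φ g), g, ⟨_, hg'⟩, ?_, rfl⟩, rfl⟩
      show h = h * (u g)⁻¹ * u g
      group)
  refine ⟨ψ, ?_⟩
  ext g
  exact hψ (u g) ⟨(u g, φ g), g, 1, by simp, by simp⟩ rfl

end Pool.Agent.MP_e97151_al
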