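import Pool.Agent.MP_e97151_al.KronA

/-! Existence of a nested almost invariant set (Dunwoody; proof after Kroen). -/

set_option autoImplicit false

namespace Pool.Agent.MP_e97151_al

/-- one of the four corners is empty -/
def Nested {G : Type} (A B : Set G) : Prop :=
  A ∩ B = ∅ ∨ A ∩ Bᶜ = ∅ ∨ Aᶜ ∩ B = ∅ ∨ Aᶜ ∩ Bᶜ = ∅

/-- left translate of a set -/
def tr {G : Type} [Group G] (g : G) (Y : Set G) : Set G := {y | g⁻¹ * y ∈ Y}

/-- HINT (complete proof). Fix a finite generating set `S`. `bd C := {(x,s) | s ∈ S ∧ ¬(x ∈ C ↔ x*s ∈ C)}`.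
A cut is `C` infinite, coinfinite with `bd C` finite; `κ` = least `ncard (bd C)`; thin = cut with `κ`
boundary edges. Complements and left translates of thin sets are thin. Connectedness: `bd C = ∅`
forces `C = ∅` or `univ`; two sets with equal boundary that agree at one point are equal.
(1) Submodularity: `|bd (C∩D)| + |bd (Cᶜ∩Dᶜ)| ≤ |bd C| + |bd D|` (edge by edge), so two opposite
infinite corners of thin sets are thin. Some pair of opposite corners is infinite.
(2) For `a b` only finitely many thin `D` have `a ∈ D`, `b ∉ D`: otherwise take a nonprincipal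
ultrafilter on that infinite family and the pointwise limit `D`; every finite set of boundary edges
of `D` is in `bd Dn` for most `n`, so `|bd D| ≤ κ`; if `= κ` then `bd Dn = bd D`, so `Dn = D` for most
`n`, absurd; if `< κ` then `D` or `Dᶜ` is finite and nonempty, say `D`; for most `n`, `D ⊆ Dn` and
`bd D ⊆ bd Dn`, and `Dn \ D` is a cut with boundary inside `bd Dn \ bd D`, smaller than `κ`.
(3) If thin `C`, `D` are not nested then `D` separates two end points of edges in `bd C` (else, say
all end points lie in `D`: `bd (C∩Dᶜ)` and `bd (Cᶜ∩Dᶜ)` are disjoint nonempty parts of `bd D` and one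
of these corners is infinite). So `m C` := number of thin sets not nested with `C` is finite.
(4) For non nested thin `C`, `D` with opposite corners `α`, `δ` thin: a thin `E` nested with `C` (or `D`)
is nested with `α` or `δ`; `E` nested with both `C` and `D` is nested with all corners; `D` is nested
with `α` and `δ` but not with `C`. Hence `m α + m δ < m C + m D`.
(5) A thin `Y` with minimal `m` is nested with all translates since `m (tr g Y) = m Y`. -/
theorem exists_nested {G : Type} [Group G] (hfg : Group.FG G) (h : AI G) :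
    ∃ Y : Set G, Y.Infinite ∧ Yᶜ.Infinite ∧ AInv Y ∧ ∀ g : G, Nested Y (tr g Y) := by
  classical
  obtain ⟨S, hS⟩ := hfg.out
  let o : G × S → G := fun e => e.1
  let t : G × S → G := fun e => e.1 * e.2
  have hfin : ∀ C : Set G, (KronA.bd o t C).Finite ↔
      ∀ s ∈ S, {y | ¬ (y ∈ C ↔ y * s ∈ C)}.Finite := by
    intro C
    constructor
    · intro hC s hs
      refine (hC.image Prod.fst).subset fun y hy => ⟨(y, ⟨s, hs⟩), hy, rfl⟩
    · intro hC
      refine (Set.finite_iUnion fun s : S =>
        (hC s s.2).image fun y => ((y, s) : G × S)).subset ?_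
      rintro ⟨y, s⟩ he
      exact Set.mem_iUnion.mpr ⟨s, y, he, rfl⟩
  have hc : KronA.Conn o t := by
    intro C hC
    have hs : ∀ s ∈ S, ∀ y, y ∈ C ↔ y * s ∈ C := by
      intro s hs y
      by_contra hn
      have : ((y, ⟨s, hs⟩) : G × S) ∈ KronA.bd o t C := hn
      rw [hC] at this
      exact this
    have hall : ∀ g : G, ∀ y, y ∈ C ↔ y * g ∈ C := by
      intro g
      have hg : g ∈ Subgroup.closure (S : Set G) := hS ▸ Subgroup.mem_top g
      induction hg using Subgroup.closure_induction with
      | mem s hs' => exact hs s hs'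
      | one => simp
      | mul a b _ _ ha hb =>
        intro y
        rw [← mul_assoc, ← hb, ← ha]
      | inv a _ ha =>
        intro y
        rw [ha (y * a⁻¹), inv_mul_cancel_right]
    by_cases h1 : (1 : G) ∈ C
    · right
      ext g
      simpa using (hall g 1).mp h1
    · left
      ext g
      simpa using fun hg => h1 ((hall g 1).mpr (by simpa using hg))
  obtain ⟨C, c1, c2, c3⟩ := h
  obtain ⟨Y, hY, hopt⟩ := KronA.exists_optimal hc ⟨C, c1, c2, (hfin C).mpr fun s _ => c3 s⟩
  refine ⟨Y, hY.1.1, hY.1.2.1, aInv_of_gens hS ((hfin Y).mp hY.1.2.2), fun g => ?_⟩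
  let φ : G ≃ G := Equiv.mulLeft g⁻¹
  let ψ : G × S ≃ G × S := Equiv.prodCongr φ (Equiv.refl _)
  have ho : ∀ e, o (ψ e) = φ (o e) := fun e => rfl
  have ht : ∀ e, t (ψ e) = φ (t e) := fun e => mul_assoc _ _ _
  exact hopt (φ ⁻¹' Y) ((KronA.thin_pre φ ψ ho ht Y).mpr hY) (KronA.NN_pre φ ψ ho ht Y)

end Pool.Agent.MP_e97151_al
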