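import Pool.Agent.MP_e97151_al.Basic

/-! Thin cuts of a connected directed multigraph (after Kroen): counting lemmas. -/

set_option autoImplicit false

namespace Pool.Agent.MP_e97151_al.KronA

variable {V E : Type}

/-- the edges with exactly one end point in `C` -/
def bd (o t : E → V) (C : Set V) : Set E := {e | ¬ (o e ∈ C ↔ t e ∈ C)}

/-- connectedness -/
def Conn (o t : E → V) : Prop := ∀ C : Set V, bd o t C = ∅ → C = ∅ ∨ C = Set.univ

/-- infinite, coinfinite, finite boundary -/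
def Cut (o t : E → V) (C : Set V) : Prop := C.Infinite ∧ Cᶜ.Infinite ∧ (bd o t C).Finite

/-- a cut with the least number of boundary edges -/
def Thin (o t : E → V) (C : Set V) : Prop :=
  Cut o t C ∧ ∀ D, Cut o t D → (bd o t C).ncard ≤ (bd o t D).ncard

/-- one of the four corners is empty -/
def Nst (A B : Set V) : Prop :=
  A ∩ B = ∅ ∨ A ∩ Bᶜ = ∅ ∨ Aᶜ ∩ B = ∅ ∨ Aᶜ ∩ Bᶜ = ∅

variable {o t : E → V}

theorem bd_compl (C : Set V) : bd o t Cᶜ = bd o t C := by
  ext e
  simp only [bd, Set.mem_ofPred_eq, Set.mem_compl_iff]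
  tauto

theorem Cut.compl {C : Set V} (h : Cut o t C) : Cut o t Cᶜ :=
  ⟨h.2.1, by rw [compl_compl]; exact h.1, by rw [bd_compl]; exact h.2.2⟩

theorem Thin.compl {C : Set V} (h : Thin o t C) : Thin o t Cᶜ :=
  ⟨h.1.compl, fun D hD => by rw [bd_compl]; exact h.2 D hD⟩

theorem Thin.card_eq {C D : Set V} (hC : Thin o t C) (hD : Thin o t D) :
    (bd o t C).ncard = (bd o t D).ncard :=
  le_antisymm (hC.2 D hD.1) (hD.2 C hC.1)

theorem exists_thin (h : ∃ C, Cut o t C) : ∃ C, Thin o t C := by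
  obtain ⟨C, hC, hm⟩ := exists_minimalFor_of_wellFoundedLT (Cut o t)
    (fun C => (bd o t C).ncard) h
  refine ⟨C, hC, fun D hD => ?_⟩
  by_contra hlt
  push Not at hlt
  exact absurd (hm hD hlt.le) (not_le.mpr hlt)

theorem bd_nonempty (hc : Conn o t) {C : Set V} (h1 : C.Nonempty) (h2 : Cᶜ.Nonempty) :
    (bd o t C).Nonempty := by
  rw [Set.nonempty_iff_ne_empty]
  intro h
  rcases hc C h with h | h
  · exact h1.ne_empty h
  · rw [h, Set.compl_univ] at h2
    exact Set.not_nonempty_empty h2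

theorem eq_of_bd_eq (hc : Conn o t) {C D : Set V} (h : bd o t C = bd o t D) {a : V}
    (ha : a ∈ C ↔ a ∈ D) : C = D := by
  have h0 : bd o t {x | x ∈ C ↔ x ∈ D} = ∅ := by
    ext e
    have := Set.ext_iff.mp h e
    simp only [bd, Set.mem_ofPred_eq, Set.mem_empty_iff_false] at *
    tauto
  rcases hc _ h0 with h1 | h1
  · have : a ∈ {x | x ∈ C ↔ x ∈ D} := ha
    rw [h1] at this
    exact this.elim
  · ext x
    have : x ∈ {x | x ∈ C ↔ x ∈ D} := h1 ▸ Set.mem_univ x
    exact this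

theorem bd_inter_subset (C D : Set V) : bd o t (C ∩ D) ⊆ bd o t C ∪ bd o t D := by
  intro e
  simp only [bd, Set.mem_ofPred_eq, Set.mem_inter_iff, Set.mem_union]
  tauto

theorem submod {C D : Set V} (hC : (bd o t C).Finite) (hD : (bd o t D).Finite) :
    (bd o t (C ∩ D)).ncard + (bd o t (Cᶜ ∩ Dᶜ)).ncard ≤ (bd o t C).ncard + (bd o t D).ncard := by
  have h1 : bd o t (C ∩ D) ⊆ bd o t C ∪ bd o t D := bd_inter_subset C D
  have h2 : bd o t (Cᶜ ∩ Dᶜ) ⊆ bd o t C ∪ bd o t D := by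
    have := bd_inter_subset (o := o) (t := t) Cᶜ Dᶜ
    rwa [bd_compl, bd_compl] at this
  have h3 : bd o t (C ∩ D) ∩ bd o t (Cᶜ ∩ Dᶜ) ⊆ bd o t C ∩ bd o t D := by
    intro e
    simp only [bd, Set.mem_ofPred_eq, Set.mem_inter_iff, Set.mem_compl_iff]
    tauto
  have hu := hC.union hD
  rw [← Set.ncard_union_add_ncard_inter _ _ (hu.subset h1) (hu.subset h2),
    ← Set.ncard_union_add_ncard_inter _ _ hC hD]
  exact add_le_add (Set.ncard_le_ncard (Set.union_subset h1 h2) hu)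
    (Set.ncard_le_ncard h3 (hC.subset Set.inter_subset_left))

/-- two opposite infinite corners of thin sets are thin -/
theorem thin_corners {C D : Set V} (hC : Thin o t C) (hD : Thin o t D)
    (h1 : (C ∩ D).Infinite) (h2 : (Cᶜ ∩ Dᶜ).Infinite) :
    Thin o t (C ∩ D) ∧ Thin o t (Cᶜ ∩ Dᶜ) := by
  have hu := hC.1.2.2.union hD.1.2.2
  have c1 : Cut o t (C ∩ D) := by
    refine ⟨h1, h2.mono ?_, hu.subset (bd_inter_subset C D)⟩
    intro x hx hx'
    exact hx.1 hx'.1
  have c2 : Cut o t (Cᶜ ∩ Dᶜ) := by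
    refine ⟨h2, h1.mono ?_, hu.subset ?_⟩
    · intro x hx hx'
      exact hx'.1 hx.1
    · have := bd_inter_subset (o := o) (t := t) Cᶜ Dᶜ
      rwa [bd_compl, bd_compl] at this
  have hs := submod hC.1.2.2 hD.1.2.2
  have e1 := hC.2 _ c1
  have e2 := hC.2 _ c2
  have e3 := hC.card_eq hD
  refine ⟨⟨c1, fun X hX => ?_⟩, ⟨c2, fun X hX => ?_⟩⟩
  · have := hC.2 X hX
    omega
  · have := hC.2 X hX
    omega

theorem opposite_infinite {C D : Set V} (hC : Cut o t C) (hD : Cut o t D) :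
    ((C ∩ D).Infinite ∧ (Cᶜ ∩ Dᶜ).Infinite) ∨ ((C ∩ Dᶜ).Infinite ∧ (Cᶜ ∩ Dᶜᶜ).Infinite) := by
  rw [compl_compl]
  have key : ∀ A B : Set V, A.Infinite → (A ∩ B).Finite → (A ∩ Bᶜ).Infinite := by
    intro A B hA hf hg
    exact hA ((hf.union hg).subset (by rw [Set.inter_union_compl]))
  by_cases h1 : (C ∩ D).Finite
  · right
    refine ⟨key C D hC.1 h1, ?_⟩
    rw [Set.inter_comm] at h1 ⊢
    exact key D C hD.1 h1
  by_cases h2 : (Cᶜ ∩ Dᶜ).Finite
  · right
    constructor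
    · rw [Set.inter_comm] at h2 ⊢
      have := key Dᶜ Cᶜ hD.2.1 h2
      rwa [compl_compl] at this
    · have := key Cᶜ Dᶜ hC.2.1 h2
      rwa [compl_compl] at this
  exact Or.inl ⟨h1, h2⟩

/-- a finite nonempty set cannot sit in a thin set with its boundary -/
theorem no_small (hc : Conn o t) {D X : Set V} (hX : Thin o t X) (hD : D.Finite)
    (hne : D.Nonempty) (hsub : D ⊆ X) (hb : bd o t D ⊆ bd o t X) : False := by
  have hcut : Cut o t (X \ D) := by
    refine ⟨hX.1.1.sdiff hD, hX.1.2.1.mono ?_, hX.1.2.2.subset ?_⟩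
    · intro x hx hx'
      exact hx hx'.1
    · intro e he
      have h1 := @hsub (o e)
      have h2 := @hsub (t e)
      have h3 := @hb e
      simp only [bd, Set.mem_ofPred_eq, Set.mem_sdiff] at *
      tauto
  have hs : bd o t (X \ D) ⊆ bd o t X \ bd o t D := by
    intro e he
    have h1 := @hsub (o e)
    have h2 := @hsub (t e)
    have h3 := @hb e
    simp only [bd, Set.mem_ofPred_eq, Set.mem_sdiff] at *
    tauto
  obtain ⟨e, he⟩ := bd_nonempty hc hne (hX.1.2.1.nonempty.mono (Set.compl_subset_compl.mpr hsub))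
  have hlt : (bd o t (X \ D)).ncard < (bd o t X).ncard := by
    refine Set.ncard_lt_ncard ?_ hX.1.2.2
    refine (Set.ssubset_iff_of_subset (hs.trans Set.sdiff_subset)).mpr ⟨e, hb he, fun h => ?_⟩
    exact (hs h).2 he
  exact absurd (hX.2 _ hcut) (not_le.mpr hlt)

/-- only finitely many thin sets separate two given points -/
theorem finite_sep (hc : Conn o t) (a b : V) :
    {D : Set V | Thin o t D ∧ a ∈ D ∧ b ∉ D}.Finite := by
  classical
  by_contra hinf
  set F := {D : Set V | Thin o t D ∧ a ∈ D ∧ b ∉ D} with hF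
  have hinf' : F.Infinite := hinf
  have hne : (Filter.cofinite ⊓ Filter.principal F).NeBot :=
    hinf'.cofinite_inf_principal_neBot
  set U : Ultrafilter (Set V) := Ultrafilter.of (Filter.cofinite ⊓ Filter.principal F) with hU
  have hle : (U : Filter (Set V)) ≤ Filter.cofinite ⊓ Filter.principal F := Ultrafilter.of_le _
  have hUF : ∀ᶠ X in (U : Filter (Set V)), X ∈ F :=
    (hle.trans inf_le_right) (Filter.mem_principal_self F)
  have hUc : ∀ D : Set V, ∀ᶠ X in (U : Filter (Set V)), X ≠ D := fun D =>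
    (hle.trans inf_le_left) (Filter.eventually_cofinite_ne D)
  set D : Set V := {x | ∀ᶠ X in (U : Filter (Set V)), x ∈ X} with hD
  have hpt : ∀ x, ∀ᶠ X in (U : Filter (Set V)), (x ∈ D ↔ x ∈ X) := by
    intro x
    by_cases hx : x ∈ D
    · have h' : ∀ᶠ X in (U : Filter (Set V)), x ∈ X := hx
      exact h'.mono fun X hX => ⟨fun _ => hX, fun _ => hx⟩
    · have h' : ∀ᶠ X in (U : Filter (Set V)), ¬ x ∈ X := Ultrafilter.eventually_not.mpr hx
      exact h'.mono fun X hX => ⟨fun h => absurd h hx, fun h => absurd h hX⟩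
  have hedge : ∀ T : Set E, T.Finite → T ⊆ bd o t D →
      ∀ᶠ X in (U : Filter (Set V)), T ⊆ bd o t X := by
    intro T hT hTD
    have : ∀ᶠ X in (U : Filter (Set V)), ∀ e ∈ T, e ∈ bd o t X := by
      rw [Filter.eventually_all_finite hT]
      intro e he
      filter_upwards [hpt (o e), hpt (t e)] with X h1 h2
      have := hTD he
      simp only [bd, Set.mem_ofPred_eq] at *
      tauto
    exact this
  obtain ⟨X0, hX0⟩ := hUF.exists
  have hfin : (bd o t D).Finite := by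
    by_contra hi
    obtain ⟨T, hT, hTc⟩ := Set.Infinite.exists_subset_card_eq hi ((bd o t X0).ncard + 1)
    obtain ⟨X, h1, h2⟩ := ((hedge T T.finite_toSet hT).and hUF).exists
    have := Set.ncard_le_ncard h1 h2.1.1.2.2
    rw [Set.ncard_coe_finset, hTc, h2.1.card_eq hX0.1] at this
    omega
  have haD : a ∈ D := hUF.mono fun X hX => hX.2.1
  have hbD : b ∉ D := by
    intro hb
    have hb' : ∀ᶠ X in (U : Filter (Set V)), b ∈ X := hb
    obtain ⟨X, h1, h2⟩ := (hb'.and hUF).exists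
    exact h2.2.2 h1
  have hall := hedge _ hfin subset_rfl
  by_cases h1 : D.Finite
  · have hs : ∀ᶠ X in (U : Filter (Set V)), ∀ x ∈ D, x ∈ X := by
      rw [Filter.eventually_all_finite h1]
      intro x hx
      exact hx
    obtain ⟨X, ⟨e1, e2⟩, e3⟩ := ((hall.and hs).and hUF).exists
    exact no_small hc e3.1 h1 ⟨a, haD⟩ e2 e1
  by_cases h2 : Dᶜ.Finite
  · have hs : ∀ᶠ X in (U : Filter (Set V)), ∀ x ∈ Dᶜ, x ∈ Xᶜ := by
      rw [Filter.eventually_all_finite h2]
      intro x hx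
      exact (hpt x).mono fun X hX h => hx (hX.mpr h)
    obtain ⟨X, ⟨e1, e2⟩, e3⟩ := ((hall.and hs).and hUF).exists
    exact no_small hc e3.1.compl h2 ⟨b, hbD⟩ e2 (by rwa [bd_compl, bd_compl])
  have hcut : Cut o t D := ⟨h1, h2, hfin⟩
  obtain ⟨X, ⟨e1, e2⟩, e3⟩ := ((hall.and (hUc D)).and hUF).exists
  have heq : bd o t D = bd o t X :=
    Set.eq_of_subset_of_ncard_le e1 (e3.1.2 D hcut) e3.1.1.2.2
  exact e2 (eq_of_bd_eq hc heq (a := a) ⟨fun _ => e3.2.1, fun _ => haD⟩).symm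

theorem Nst.symm {A B : Set V} (h : Nst A B) : Nst B A := by
  unfold Nst at *
  rw [Set.inter_comm B A, Set.inter_comm B Aᶜ, Set.inter_comm Bᶜ A, Set.inter_comm Bᶜ Aᶜ]
  tauto

theorem nst_compl_right {A B : Set V} : Nst A Bᶜ ↔ Nst A B := by
  unfold Nst
  rw [compl_compl]
  tauto

theorem not_all_in (hc : Conn o t) {C D : Set V} (hD : Thin o t D)
    (hn : ¬ Nst C D) (hall : ∀ e ∈ bd o t C, o e ∈ D ∧ t e ∈ D) : False := by
  unfold Nst at hn
  push Not at hn
  obtain ⟨n1, n2, n3, n4⟩ := hn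
  have key : ∀ C : Set V, (∀ e ∈ bd o t C, o e ∈ D ∧ t e ∈ D) → (Cᶜ ∩ Dᶜ).Nonempty →
      (C ∩ Dᶜ).Infinite → False := by
    intro C hall m2 hi
    have s1 : bd o t (C ∩ Dᶜ) ⊆ bd o t D := by
      intro e he
      have := hall e
      simp only [bd, Set.mem_ofPred_eq, Set.mem_inter_iff, Set.mem_compl_iff] at *
      tauto
    have hDne : D.Nonempty := hD.1.1.nonempty
    obtain ⟨e, he⟩ := bd_nonempty hc m2 (hDne.mono (fun x hx hx' => hx'.2 hx))
    have e1 : e ∈ bd o t D := by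
      have := hall e
      simp only [bd, Set.mem_ofPred_eq, Set.mem_inter_iff, Set.mem_compl_iff] at *
      tauto
    have e2 : e ∉ bd o t (C ∩ Dᶜ) := by
      have := hall e
      simp only [bd, Set.mem_ofPred_eq, Set.mem_inter_iff, Set.mem_compl_iff] at *
      tauto
    have hcut : Cut o t (C ∩ Dᶜ) :=
      ⟨hi, hD.1.1.mono (fun x hx hx' => hx'.2 hx), hD.1.2.2.subset s1⟩
    have hlt : (bd o t (C ∩ Dᶜ)).ncard < (bd o t D).ncard :=
      Set.ncard_lt_ncard ((Set.ssubset_iff_of_subset s1).mpr ⟨e, e1, e2⟩) hD.1.2.2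
    exact absurd (hD.2 _ hcut) (not_le.mpr hlt)
  by_cases hi : (C ∩ Dᶜ).Infinite
  · exact key C hall n4 hi
  · have hi' : (Cᶜ ∩ Dᶜ).Infinite := by
      intro hf
      refine hD.1.2.1 (((Set.not_infinite.mp hi).union hf).subset ?_)
      intro x hx
      by_cases hxC : x ∈ C
      · exact Or.inl ⟨hxC, hx⟩
      · exact Or.inr ⟨hxC, hx⟩
    refine key Cᶜ (by rwa [bd_compl]) (by rwa [compl_compl]) hi'

/-- the thin sets that are not nested with `C` -/
def NN (o t : E → V) (C : Set V) : Set (Set V) := {D | Thin o t D ∧ ¬ Nst C D}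

theorem NN_finite (hc : Conn o t) {C : Set V} (hC : (bd o t C).Finite) : (NN o t C).Finite := by
  set P : Set V := o '' bd o t C ∪ t '' bd o t C with hP
  have hPf : P.Finite := (hC.image o).union (hC.image t)
  refine (hPf.biUnion fun a _ => hPf.biUnion fun b _ => finite_sep hc a b).subset ?_
  rintro D ⟨hD, hn⟩
  simp only [Set.mem_iUnion, Set.mem_ofPred_eq]
  by_contra hcon
  push Not at hcon
  by_cases h1 : ∃ a ∈ P, a ∈ D
  · obtain ⟨a, ha, haD⟩ := h1
    refine not_all_in hc hD hn fun e he => ⟨?_, ?_⟩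
    · exact hcon a ha _ (Or.inl ⟨e, he, rfl⟩) hD haD
    · exact hcon a ha _ (Or.inr ⟨e, he, rfl⟩) hD haD
  · push Not at h1
    refine not_all_in hc hD.compl (by rwa [nst_compl_right]) fun e he => ⟨?_, ?_⟩
    · exact h1 _ (Or.inl ⟨e, he, rfl⟩)
    · exact h1 _ (Or.inr ⟨e, he, rfl⟩)

theorem NN_compl (C : Set V) : NN o t Cᶜ = NN o t C := by
  ext D
  simp only [NN, Set.mem_ofPred_eq]
  have : Nst Cᶜ D ↔ Nst C D :=
    ⟨fun h => (nst_compl_right.mp h.symm).symm, fun h => (nst_compl_right.mpr h.symm).symm⟩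
  rw [this]

theorem nst_iff (A B : Set V) : Nst A B ↔
    (∀ x, x ∈ A → x ∉ B) ∨ (∀ x, x ∈ A → x ∈ B) ∨ (∀ x, x ∉ A → x ∉ B) ∨
      (∀ x, x ∉ A → x ∈ B) := by
  simp only [Nst, Set.eq_empty_iff_forall_notMem, Set.mem_inter_iff, Set.mem_compl_iff, not_and,
    not_not]

theorem nst_corner_or {C D X : Set V} (h : Nst C X) : Nst (C ∩ D) X ∨ Nst (Cᶜ ∩ Dᶜ) X := by
  simp only [nst_iff, Set.mem_inter_iff, Set.mem_compl_iff] at *
  rcases h with h | h | h | h
  · exact Or.inl (Or.inl fun x hx => h x hx.1)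
  · exact Or.inl (Or.inr (Or.inl fun x hx => h x hx.1))
  · exact Or.inr (Or.inl fun x hx => h x hx.1)
  · exact Or.inr (Or.inr (Or.inl fun x hx => h x hx.1))

theorem nst_inter {C D X : Set V} (hn : ¬ Nst C D) (h1 : Nst C X) (h2 : Nst D X) :
    Nst (C ∩ D) X := by
  simp only [nst_iff, Set.mem_inter_iff] at *
  rcases h1 with h1 | h1 | h1 | h1
  · exact Or.inl fun x hx => h1 x hx.1
  · exact Or.inr (Or.inl fun x hx => h1 x hx.1)
  · rcases h2 with h2 | h2 | h2 | h2
    · exact Or.inl fun x hx => h2 x hx.2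
    · exact Or.inr (Or.inl fun x hx => h2 x hx.2)
    · refine Or.inr (Or.inr (Or.inl fun x hx => ?_))
      by_cases hxC : x ∈ C
      · exact h2 x fun h => hx ⟨hxC, h⟩
      · exact h1 x hxC
    · refine absurd (Or.inr (Or.inr (Or.inr fun x hx => ?_))) hn
      by_contra hxD
      exact h1 x hx (h2 x hxD)
  · rcases h2 with h2 | h2 | h2 | h2
    · exact Or.inl fun x hx => h2 x hx.2
    · exact Or.inr (Or.inl fun x hx => h2 x hx.2)
    · refine absurd (Or.inr (Or.inr (Or.inr fun x hx => ?_))) hn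
      by_contra hxD
      exact h2 x hxD (h1 x hx)
    · refine Or.inr (Or.inr (Or.inr fun x hx => ?_))
      by_cases hxC : x ∈ C
      · exact h2 x fun h => hx ⟨hxC, h⟩
      · exact h1 x hxC

theorem nst_compl_left {A B : Set V} : Nst Aᶜ B ↔ Nst A B :=
  ⟨fun h => (nst_compl_right.mp h.symm).symm, fun h => (nst_compl_right.mpr h.symm).symm⟩

theorem NN_lt (hc : Conn o t) {C D : Set V} (hC : Thin o t C) (hD : Thin o t D)
    (hn : ¬ Nst C D) :
    (NN o t (C ∩ D)).ncard + (NN o t (Cᶜ ∩ Dᶜ)).ncard < (NN o t C).ncard + (NN o t D).ncard := by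
  have fC := NN_finite hc hC.1.2.2
  have fD := NN_finite hc hD.1.2.2
  have hu := fC.union fD
  have h1 : NN o t (C ∩ D) ⊆ NN o t C ∪ NN o t D := by
    rintro X ⟨hX, hX'⟩
    by_contra hcon
    simp only [NN, Set.mem_union, Set.mem_ofPred_eq, hX, true_and, not_or, not_not] at hcon
    exact hX' (nst_inter hn hcon.1 hcon.2)
  have h2 : NN o t (Cᶜ ∩ Dᶜ) ⊆ NN o t C ∪ NN o t D := by
    rintro X ⟨hX, hX'⟩
    by_contra hcon
    simp only [NN, Set.mem_union, Set.mem_ofPred_eq, hX, true_and, not_or, not_not] at hcon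
    exact hX' (nst_inter (by rwa [nst_compl_left, nst_compl_right]) (nst_compl_left.mpr hcon.1)
      (nst_compl_left.mpr hcon.2))
  have h3 : NN o t (C ∩ D) ∩ NN o t (Cᶜ ∩ Dᶜ) ⊆ NN o t C ∩ NN o t D := by
    rintro X ⟨⟨hX, a1⟩, ⟨-, a2⟩⟩
    refine ⟨⟨hX, fun h => ?_⟩, ⟨hX, fun h => ?_⟩⟩
    · rcases nst_corner_or (D := D) h with h | h
      · exact a1 h
      · exact a2 h
    · rcases nst_corner_or (D := C) h with h | h
      · exact a1 (by rwa [Set.inter_comm])
      · exact a2 (by rwa [Set.inter_comm])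
  have h4 : D ∉ NN o t (C ∩ D) ∪ NN o t (Cᶜ ∩ Dᶜ) := by
    rintro (⟨-, h⟩ | ⟨-, h⟩)
    · exact h ((nst_iff _ _).mpr (Or.inr (Or.inl fun x hx => hx.2)))
    · exact h ((nst_iff _ _).mpr (Or.inl fun x hx => hx.2))
  rw [← Set.ncard_union_add_ncard_inter _ _ (hu.subset h1) (hu.subset h2),
    ← Set.ncard_union_add_ncard_inter _ _ fC fD]
  refine add_lt_add_of_lt_of_le (Set.ncard_lt_ncard ?_ hu)
    (Set.ncard_le_ncard h3 (fC.subset Set.inter_subset_left))
  exact (Set.ssubset_iff_of_subset (Set.union_subset h1 h2)).mpr ⟨D, Or.inl ⟨hD, hn⟩, h4⟩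

/-- a thin set with the fewest crossing thin sets is nested with every thin set having the same
number of crossing thin sets -/
theorem exists_optimal (hc : Conn o t) (h : ∃ C, Cut o t C) :
    ∃ Y, Thin o t Y ∧ ∀ D, Thin o t D → (NN o t D).ncard = (NN o t Y).ncard → Nst Y D := by
  obtain ⟨Y, hY, hm⟩ := exists_minimalFor_of_wellFoundedLT (Thin o t)
    (fun C => (NN o t C).ncard) (exists_thin h)
  have hmin : ∀ D, Thin o t D → (NN o t Y).ncard ≤ (NN o t D).ncard := by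
    intro D hD
    by_contra hlt
    push Not at hlt
    exact absurd (hm hD hlt.le) (not_le.mpr hlt)
  refine ⟨Y, hY, fun D hD he => ?_⟩
  by_contra hn
  rcases opposite_infinite hY.1 hD.1 with ⟨i1, i2⟩ | ⟨i1, i2⟩
  · obtain ⟨t1, t2⟩ := thin_corners hY hD i1 i2
    have := NN_lt hc hY hD hn
    have := hmin _ t1
    have := hmin _ t2
    omega
  · obtain ⟨t1, t2⟩ := thin_corners hY hD.compl i1 i2
    have := NN_lt hc hY hD.compl (by rwa [nst_compl_right])
    rw [NN_compl] at this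
    have := hmin _ t1
    have := hmin _ t2
    omega

section Aut

variable (φ : V ≃ V) (ψ : E ≃ E)

theorem bd_pre (ho : ∀ e, o (ψ e) = φ (o e)) (ht : ∀ e, t (ψ e) = φ (t e)) (C : Set V) :
    bd o t (φ ⁻¹' C) = ψ ⁻¹' bd o t C := by
  ext e
  simp only [bd, Set.mem_ofPred_eq, Set.mem_preimage, ho, ht]

theorem ncard_pre {A : Type} (ψ : A ≃ A) (T : Set A) : (ψ ⁻¹' T).ncard = T.ncard :=
  Set.ncard_preimage_of_injective_subset_range ψ.injective (by simp)

theorem cut_pre (ho : ∀ e, o (ψ e) = φ (o e)) (ht : ∀ e, t (ψ e) = φ (t e)) (C : Set V) :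
    Cut o t (φ ⁻¹' C) ↔ Cut o t C := by
  unfold Cut
  rw [bd_pre φ ψ ho ht, ← Set.preimage_compl]
  have k : ∀ {A : Type} (f : A ≃ A) (T : Set A), (f ⁻¹' T).Finite ↔ T.Finite := fun f T =>
    ⟨fun h => Set.Finite.of_preimage h f.surjective, fun h => h.preimage f.injective.injOn⟩
  simp only [Set.Infinite, k]

theorem thin_pre (ho : ∀ e, o (ψ e) = φ (o e)) (ht : ∀ e, t (ψ e) = φ (t e)) (C : Set V) :
    Thin o t (φ ⁻¹' C) ↔ Thin o t C := by
  unfold Thin
  rw [cut_pre φ ψ ho ht, bd_pre φ ψ ho ht, ncard_pre]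

theorem nst_pre (A B : Set V) : Nst (φ ⁻¹' A) (φ ⁻¹' B) ↔ Nst A B := by
  unfold Nst
  have k : ∀ T : Set V, φ ⁻¹' T = ∅ ↔ T = ∅ := fun T =>
    ⟨fun h => φ.surjective.preimage_injective (by simpa using h), fun h => by simp [h]⟩
  simp only [← Set.preimage_compl, ← Set.preimage_inter, k]

theorem NN_pre (ho : ∀ e, o (ψ e) = φ (o e)) (ht : ∀ e, t (ψ e) = φ (t e)) (C : Set V) :
    (NN o t (φ ⁻¹' C)).ncard = (NN o t C).ncard := by
  have : NN o t (φ ⁻¹' C) = (fun D : Set V => φ ⁻¹' D) '' NN o t C := by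
    ext D
    constructor
    · rintro ⟨h1, h2⟩
      have e : φ ⁻¹' (φ.symm ⁻¹' D) = D := by
        ext x
        simp
      refine ⟨φ.symm ⁻¹' D, ⟨?_, ?_⟩, e⟩
      · rw [← thin_pre φ ψ ho ht, e]
        exact h1
      · rw [← nst_pre φ, e]
        exact h2
    · rintro ⟨X, ⟨h1, h2⟩, rfl⟩
      exact ⟨(thin_pre φ ψ ho ht X).mpr h1, fun h => h2 ((nst_pre φ C X).mp h)⟩
  rw [this]
  exact Set.ncard_image_of_injective _ φ.surjective.preimage_injective

end Aut

end Pool.Agent.MP_e97151_al.KronA
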