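import Pool.Agent.MP_e97151_al.Kron

/-! The twisted homomorphisms defined by a nested almost invariant set. -/

set_option autoImplicit false

namespace Pool.Agent.MP_e97151_al

section Walls

variable {K X : Type} (W : K → Set X)

/-- the wall `k` separates `a` and `b` -/
def Sep (a b : X) (k : K) : Prop := ¬ (a ∈ W k ↔ b ∈ W k)

/-- the side of the wall `k` that contains `b` -/
def side (b : X) (k : K) : Set X := {x | x ∈ W k ↔ b ∈ W k}

/-- `l` lists the walls between `a` and `b` in their order -/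
def IsL (a b : X) (l : List K) : Prop :=
  (∀ k, k ∈ l ↔ Sep W a b k) ∧ l.Pairwise (fun k k' => side W b k' ⊂ side W b k)

variable {W}

theorem IsL.nodup {a b : X} {l : List K} (h : IsL W a b l) : l.Nodup :=
  h.2.imp (fun {k k'} hk e => by subst e; exact hk.ne rfl)

theorem IsL.unique {a b : X} {l l' : List K} (h : IsL W a b l) (h' : IsL W a b l') : l = l' := by
  refine List.Perm.eq_of_pairwise (fun k k' _ _ h1 h2 => ?_) h.2 h'.2
    ((List.perm_ext_iff_of_nodup h.nodup h'.nodup).2 fun k => by rw [h.1, h'.1])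
  exact absurd h2.subset h1.not_superset

theorem side_total (hN : ∀ k k', Nested (W k) (W k')) {a b : X} {k k' : K} (hk : Sep W a b k)
    (hk' : Sep W a b k') : side W b k ⊆ side W b k' ∨ side W b k' ⊆ side W b k := by
  by_contra hc
  rw [not_or, Set.not_subset, Set.not_subset] at hc
  obtain ⟨⟨x, hx, hx'⟩, ⟨y, hy, hy'⟩⟩ := hc
  simp only [side, Sep, Set.mem_ofPred_eq] at hx hx' hy hy' hk hk'
  have key : ∀ A B : Set X, A ∩ B = ∅ → ∀ u, ¬ (u ∈ A ∧ u ∈ B) := fun A B e u hu => by
    have : u ∈ A ∩ B := hu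
    rw [e] at this
    exact this
  have all : ∀ p q : Prop, ∃ u, (u ∈ W k ↔ p) ∧ (u ∈ W k' ↔ q) := fun p q => by
    by_cases h1 : b ∈ W k ↔ p
    · by_cases h2 : b ∈ W k' ↔ q
      · exact ⟨b, h1, h2⟩
      · exact ⟨x, hx.trans h1, by clear key hk hk' hy hy' hx h1; tauto⟩
    · by_cases h2 : b ∈ W k' ↔ q
      · exact ⟨y, by clear key hk hk' hy hx' hx h2; tauto, hy.trans h2⟩
      · exact ⟨a, by clear key hk' hy hy' hx' hx h2; tauto,
          by clear key hk hy hy' hx' hx h1; tauto⟩
  rcases hN k k' with e | e | e | e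
  · obtain ⟨u, h1, h2⟩ := all True True
    exact key _ _ e u ⟨h1.2 trivial, h2.2 trivial⟩
  · obtain ⟨u, h1, h2⟩ := all True False
    exact key _ _ e u ⟨h1.2 trivial, h2.1⟩
  · obtain ⟨u, h1, h2⟩ := all False True
    exact key _ _ e u ⟨h1.1, h2.2 trivial⟩
  · obtain ⟨u, h1, h2⟩ := all False False
    exact key _ _ e u ⟨h1.1, h2.1⟩

theorem side_cross (hN : ∀ k k', Nested (W k) (W k')) {a b : X} {k k' : K} (hk : Sep W a b k)
    (hk' : Sep W a b k') {x : X} (hx : x ∈ side W b k) (hx' : x ∉ side W b k') :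
    side W b k' ⊂ side W b k := by
  rcases side_total hN hk hk' with h | h
  · exact absurd (h hx) hx'
  · exact ⟨h, fun h' => hx' (h' hx)⟩

theorem exists_sorted {α : Type} (f : K → Set α) (S : Finset K)
    (hS : ∀ k ∈ S, ∀ k' ∈ S, k ≠ k' → f k ⊂ f k' ∨ f k' ⊂ f k) :
    ∃ l : List K, (∀ k, k ∈ l ↔ k ∈ S) ∧ l.Pairwise (fun k k' => f k' ⊂ f k) := by
  classical
  induction S using Finset.strongInduction with
  | H S ih =>
    rcases S.eq_empty_or_nonempty with rfl | hne
    · exact ⟨[], by simp, List.Pairwise.nil⟩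
    obtain ⟨m, hm⟩ := Finset.exists_maximalFor f S hne
    obtain ⟨l, hl, hp⟩ := ih (S.erase m) (Finset.erase_ssubset hm.1)
      (fun k hk k' hk' => hS k (Finset.mem_of_mem_erase hk) k' (Finset.mem_of_mem_erase hk'))
    refine ⟨m :: l, fun k => ?_, List.Pairwise.cons (fun k hk => ?_) hp⟩
    · rw [List.mem_cons, hl, Finset.mem_erase]
      constructor
      · rintro (rfl | h)
        · exact hm.1
        · exact h.2
      · intro h
        by_cases e : k = m
        · exact Or.inl e
        · exact Or.inr ⟨e, h⟩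
    · obtain ⟨hk1, hk2⟩ := Finset.mem_erase.1 ((hl k).1 hk)
      rcases hS k hk2 m hm.1 hk1 with h | h
      · exact h
      · exact absurd (hm.2 hk2 h.subset) h.not_superset

theorem exists_isL (hN : ∀ k k', Nested (W k) (W k'))
    (hD : ∀ k k', W k = W k' ∨ W k = (W k')ᶜ → k = k') {a b : X}
    (hF : {k | Sep W a b k}.Finite) : ∃ l, IsL W a b l := by
  obtain ⟨l, hl, hp⟩ := exists_sorted (side W b) hF.toFinset (fun k hk k' hk' hne => by
    rw [Set.Finite.mem_toFinset] at hk hk'
    have hs : side W b k ≠ side W b k' := fun e => hne (hD k k' (by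
      have e' : ∀ x, (x ∈ W k ↔ b ∈ W k) ↔ (x ∈ W k' ↔ b ∈ W k') := fun x => Set.ext_iff.1 e x
      by_cases h : b ∈ W k ↔ b ∈ W k'
      · left
        ext x
        have := e' x
        tauto
      · right
        ext x
        have := e' x
        rw [Set.mem_compl_iff]
        tauto))
    rcases side_total hN hk hk' with h | h
    · exact Or.inl (ssubset_of_subset_of_ne h hs)
    · exact Or.inr (ssubset_of_subset_of_ne h hs.symm))
  exact ⟨l, fun k => by rw [hl, Set.Finite.mem_toFinset]; rfl, hp⟩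

theorem side_eq {b c : X} {k : K} (h : ¬ Sep W b c k) : side W b k = side W c k := by
  ext x
  simp only [side, Sep, Set.mem_ofPred_eq] at *
  tauto

theorem side_compl {b c : X} {k : K} (h : Sep W b c k) : side W c k = (side W b k)ᶜ := by
  ext x
  simp only [side, Sep, Set.mem_ofPred_eq, Set.mem_compl_iff] at *
  tauto

theorem three (hN : ∀ k k', Nested (W k) (W k')) {a b c : X} {l₁ l₂ l₃ : List K}
    (h₁ : IsL W a b l₁) (h₂ : IsL W b c l₂) (h₃ : IsL W a c l₃) :
    ∃ la lb lc : List K, l₁ = la ++ lb ∧ l₂ = lb.reverse ++ lc ∧ l₃ = la ++ lc := by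
  classical
  have ma : ∀ k, k ∈ l₁.filter (fun k => Sep W a c k) ↔ Sep W a b k ∧ Sep W a c k := fun k => by
    simp [List.mem_filter, h₁.1]
  have mb : ∀ k, k ∈ l₁.filter (fun k => Sep W b c k) ↔ Sep W a b k ∧ Sep W b c k := fun k => by
    simp [List.mem_filter, h₁.1]
  have mc : ∀ k, k ∈ l₂.filter (fun k => Sep W a c k) ↔ Sep W b c k ∧ Sep W a c k := fun k => by
    simp [List.mem_filter, h₂.1]
  have pa := h₁.2.filter (fun k => decide (Sep W a c k))
  have pb := h₁.2.filter (fun k => decide (Sep W b c k))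
  have pc := h₂.2.filter (fun k => decide (Sep W a c k))
  refine ⟨l₁.filter (fun k => Sep W a c k), l₁.filter (fun k => Sep W b c k),
    l₂.filter (fun k => Sep W a c k), h₁.unique ⟨fun k => ?_, ?_⟩, h₂.unique ⟨fun k => ?_, ?_⟩,
    h₃.unique ⟨fun k => ?_, ?_⟩⟩
  · rw [List.mem_append, ma, mb]
    simp only [Sep]
    tauto
  · refine List.pairwise_append.2 ⟨pa, pb, fun k hk k' hk' => ?_⟩
    rw [ma] at hk
    rw [mb] at hk'
    refine side_cross hN hk.1 hk'.1 (x := c) ?_ ?_
    all_goals
      simp only [side, Sep, Set.mem_ofPred_eq] at *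
      tauto
  · rw [List.mem_append, List.mem_reverse, mb, mc]
    simp only [Sep]
    tauto
  · refine List.pairwise_append.2 ⟨?_, pc, fun k hk k' hk' => ?_⟩
    · rw [List.pairwise_reverse]
      refine pb.imp_of_mem (fun {k k'} hk hk' h => ?_)
      rw [side_compl ((mb k).1 hk).2, side_compl ((mb k').1 hk').2]
      exact compl_lt_compl_iff_lt.2 h
    · rw [List.mem_reverse, mb] at hk
      rw [mc] at hk'
      refine side_cross hN hk.2 hk'.1 (x := a) ?_ ?_
      all_goals
        simp only [side, Sep, Set.mem_ofPred_eq] at *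
        tauto
  · rw [List.mem_append, ma, mc]
    simp only [Sep]
    tauto
  · refine List.pairwise_append.2 ⟨?_, pc, fun k hk k' hk' => ?_⟩
    · refine pa.imp_of_mem (fun {k k'} hk hk' h => ?_)
      have e : ∀ j, Sep W a b j ∧ Sep W a c j → ¬ Sep W b c j := fun j hj => by
        simp only [Sep] at *
        tauto
      rwa [← side_eq (e k ((ma k).1 hk)), ← side_eq (e k' ((ma k').1 hk'))]
    · rw [ma] at hk
      rw [mc] at hk'
      refine side_cross hN hk.2 hk'.2 (x := b) ?_ ?_
      all_goals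
        simp only [side, Sep, Set.mem_ofPred_eq] at *
        tauto

theorem prod_mul_reverse {Γ : Type} [Group Γ] (w : K → Γ) (hw : ∀ k, w k * w k = 1) (l : List K) :
    (l.map w).prod * (l.reverse.map w).prod = 1 := by
  induction l with
  | nil => simp
  | cons k l ih =>
    rw [List.reverse_cons, List.map_append, List.prod_append, List.map_cons, List.prod_cons,
      mul_assoc, ← mul_assoc (l.map w).prod, ih]
    simpa using hw k

theorem prod_cocycle (hN : ∀ k k', Nested (W k) (W k')) {a b c : X} {l₁ l₂ l₃ : List K}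
    (h₁ : IsL W a b l₁) (h₂ : IsL W b c l₂) (h₃ : IsL W a c l₃) {Γ : Type} [Group Γ] (w : K → Γ)
    (hw : ∀ k, w k * w k = 1) : (l₃.map w).prod = (l₁.map w).prod * (l₂.map w).prod := by
  obtain ⟨la, lb, lc, rfl, rfl, rfl⟩ := three hN h₁ h₂ h₃
  simp only [List.map_append, List.prod_append]
  rw [mul_assoc, ← mul_assoc (lb.map w).prod, prod_mul_reverse w hw, one_mul]

theorem head_of_head {o y b : X} {l l' : List K} {k : K} (h : IsL W o y (k :: l))
    (h' : IsL W o b l') (hk : Sep W o b k) : l'.head? = some k := by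
  obtain _ | ⟨j, l'⟩ := l'
  · exact absurd ((h'.1 k).2 hk) (by simp)
  by_cases e : j = k
  · rw [e]
    rfl
  exfalso
  have hky : Sep W o y k := (h.1 k).1 List.mem_cons_self
  have hjb : Sep W o b j := (h'.1 j).1 List.mem_cons_self
  have h1 : side W b k ⊂ side W b j := by
    rcases List.mem_cons.1 ((h'.1 k).2 hk) with e' | hm
    · exact absurd e'.symm e
    · exact List.rel_of_pairwise_cons h'.2 hm
  have hyk : y ∈ side W b k := by
    simp only [side, Sep, Set.mem_ofPred_eq] at *
    tauto
  have hyj : y ∈ side W b j := h1.subset hyk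
  have hjy : Sep W o y j := by
    simp only [side, Sep, Set.mem_ofPred_eq] at hyj hjb ⊢
    tauto
  have h2 : side W y j ⊂ side W y k := by
    rcases List.mem_cons.1 ((h.1 j).2 hjy) with e' | hm
    · exact absurd e' e
    · exact List.rel_of_pairwise_cons h.2 hm
  have e1 : side W y j = side W b j := side_eq (fun hs => hs hyj)
  have e2 : side W y k = side W b k := side_eq (fun hs => hs hyk)
  rw [e1, e2] at h2
  exact h1.not_superset h2.subset

end Walls

section Grp

variable {G : Type} [Group G]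

theorem sep_finite {Y : Set G} (hY : AInv Y) (a b : G) :
    {g : G | ¬ (a ∈ tr g Y ↔ b ∈ tr g Y)}.Finite := by
  have hi : Function.Injective (fun g : G => g⁻¹ * a) := fun g g' h => by simpa using h
  refine ((hY (a⁻¹ * b)).preimage hi.injOn).subset fun g hg => ?_
  simpa [tr, mul_assoc] using hg

theorem IsL.translate {G0 : Subgroup G} {Y : Set G} {a b : G} {l : List G0}
    (h : IsL (fun k : G0 => tr (k : G) Y) a b l) (g : G0) :
    IsL (fun k : G0 => tr (k : G) Y) (g * a) (g * b) (l.map (g * ·)) := by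
  constructor
  · intro k
    rw [List.mem_map]
    constructor
    · rintro ⟨j, hj, rfl⟩
      have := (h.1 j).1 hj
      simpa [Sep, tr, mul_assoc] using this
    · intro hk
      refine ⟨g⁻¹ * k, (h.1 _).2 ?_, by simp⟩
      simpa [Sep, tr, mul_assoc] using hk
  · rw [List.pairwise_map]
    refine h.2.imp fun {k k'} hk => ?_
    have e : ∀ j : G0, side (fun k : G0 => tr (k : G) Y) (g * b) (g * j) =
        (fun x => (g : G)⁻¹ * x) ⁻¹' side (fun k : G0 => tr (k : G) Y) b j := fun j => by
      ext x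
      simp [side, tr, mul_assoc]
    rw [e, e]
    refine ⟨Set.preimage_mono hk.subset, fun h' => hk.not_superset fun x hx => ?_⟩
    have := @h' (g * x) (by simpa using hx)
    simpa using this

theorem coset_infinite {G0 : Subgroup G} [G0.Normal] [G0.FiniteIndex] {A : Set G}
    (hA : A.Infinite) (hI : AInv A) (o : G) : {g : G0 | (g : G) * o ∈ A}.Infinite := by
  intro hfin
  have h1 : ∀ t : G, {g : G0 | (g : G) * t ∈ A}.Finite := fun t => by
    have hi : Function.Injective (fun g : G0 => (g : G) * t) := fun g g' h =>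
      Subtype.ext (mul_right_cancel h)
    refine (hfin.union ((hI (t⁻¹ * o)).preimage hi.injOn)).subset fun g hg => ?_
    simp only [Set.mem_union, Set.mem_preimage, Set.mem_ofPred_eq, mul_assoc,
      mul_inv_cancel_left] at *
    tauto
  refine hA ((Set.finite_iUnion fun c : G ⧸ G0 =>
    (h1 c.out).image (fun g : G0 => (g : G) * c.out)).subset fun y hy => ?_)
  have h2 : ((QuotientGroup.mk y : G ⧸ G0).out)⁻¹ * y ∈ G0 :=
    QuotientGroup.eq.1 (QuotientGroup.out_eq' _)
  have h3 : y * ((QuotientGroup.mk y : G ⧸ G0).out)⁻¹ ∈ G0 := Subgroup.Normal.mem_comm ‹_› h2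
  exact Set.mem_iUnion.2 ⟨QuotientGroup.mk y, ⟨_, h3⟩, by simpa using hy, by simp⟩

theorem prod_conj {Γ : Type} [Group Γ] {K : Type} (w : K → Γ) (u : Γ) (l : List K) :
    (l.map (fun k => u * w k * u⁻¹)).prod = u * (l.map w).prod * u⁻¹ := by
  induction l with
  | nil => simp
  | cons k l ih =>
    simp only [List.map_cons, List.prod_cons, ih]
    group

end Grp

/-- HINT (complete proof). Take `Y` from `exists_nested`. The set `St` of `g` with
`tr g Y = Y ∨ tr g Y = Yᶜ` is finite: pick `a ∈ Y`, `b ∉ Y`; such `g` has `g⁻¹ * a` in the finite set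
of `y` with `¬ (y ∈ Y ↔ y * (a⁻¹ * b) ∈ Y)`. `RF.avoid` gives `G0` with `G0 ∩ St = 1`.
For `a b : G` let `Wl a b` be the finite set of `k ∈ G0` with `¬ (a ∈ tr k Y ↔ b ∈ tr k Y)`, and let
`side b k` be the one of `tr k Y`, `(tr k Y)ᶜ` that contains `b`. For `k ≠ k'` in `Wl a b` nestedness gives
`side b k ⊂ side b k'` or the reverse (strict, since `k⁻¹ k' ∉ St`). Let `l a b` be the list of
`Wl a b` with `Pairwise (fun k k' => side b k' ⊂ side b k)` (exists: sort by the number of larger
sides; unique: `List.Perm.eq_of_pairwise` or similar). For three points let `Pa`, `Pb`, `Pc` be the walls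
that separate one of them from the two others; `l a b = la ++ lb`, `l b c = lb.reverse ++ lc`,
`l a c = la ++ lc`, so `P a b * P b c = P a c` for `P a b = ((l a b).map w).prod`, `w k = q k * z * (q k)⁻¹`
an involution. Also `l (g a) (g b) = (l a b).map (g * ·)`. Put `φ g = P o (g o) * q g`.
Base point: choose any `o'`, `y` separated by `Y`, let `k` be the first wall in `l o' y` and
`o = k⁻¹ o'`; then the wall `1` is the first one in `l o b` whenever it belongs to it (a larger side
missing `o` would contain `k⁻¹ y`). `Z = {g ∈ G0 | ¬ (o ∈ Y ↔ g * o ∈ Y)}`. Both `Y` and `Yᶜ` meet the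
coset `G0 o` in an infinite set (some coset `G0 t` by finite index, then right multiply by `t⁻¹ o`). -/
theorem exists_twist {G : Type} [Group G] (hfg : Group.FG G) (hrf : RF G) (h : AI G) :
    ∃ G0 : Subgroup G, G0.Normal ∧ G0.FiniteIndex ∧ ∃ (Z : Set G0) (l : G0 → List G0),
      Z.Infinite ∧ Zᶜ.Infinite ∧ (∀ g, (l g).Nodup) ∧ (∀ g, g ∈ Z ↔ (l g).head? = some 1) ∧
      ∀ (Γ : Type) [Group Γ] (q : G0 →* Γ) (z : Γ), z * z = 1 →
        ∃ φ : G0 →* Γ, ∀ g, φ g = ((l g).map (fun k => q k * z * (q k)⁻¹)).prod * q g := by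
  obtain ⟨Y, hY, hYc, hI, hnest⟩ := exists_nested hfg h
  obtain ⟨a, ha⟩ := hY.nonempty
  obtain ⟨b, hb⟩ := hYc.nonempty
  have hSt : {g : G | tr g Y = Y ∨ tr g Y = Yᶜ}.Finite := by
    refine (sep_finite hI a b).subset ?_
    rintro g (e | e)
    all_goals
      simp only [Set.mem_ofPred_eq, e, Set.mem_compl_iff] at *
      tauto
  obtain ⟨G0, hn, hfi, hav⟩ := hrf.avoid hSt
  refine ⟨G0, hn, hfi, ?_⟩
  have hpre : ∀ k k' : G0, tr ((k : G)⁻¹ * k') Y = (fun x => (k : G) * x) ⁻¹' tr (k' : G) Y :=
    fun k k' => by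
      ext x
      simp [tr, mul_assoc]
  have hpre' : ∀ k : G0, (fun x => (k : G) * x) ⁻¹' tr (k : G) Y = Y := fun k => by
    ext x
    simp [tr]
  have hN : ∀ k k' : G0, Nested (tr (k : G) Y) (tr (k' : G) Y) := fun k k' => by
    have h0 := hnest ((k : G)⁻¹ * k')
    have hs : Function.Surjective (fun x : G => (k : G) * x) := fun x => ⟨(k : G)⁻¹ * x, by simp⟩
    rw [hpre] at h0
    nth_rewrite 1 [← hpre' k] at h0
    simp only [Nested, ← Set.preimage_compl, ← Set.preimage_inter] at h0
    have key : ∀ A : Set G, (fun x : G => (k : G) * x) ⁻¹' A = ∅ → A = ∅ := fun A e =>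
      Set.eq_empty_of_forall_notMem fun x hx => by
        obtain ⟨u, rfl⟩ := hs x
        have : u ∈ (fun x : G => (k : G) * x) ⁻¹' A := hx
        rw [e] at this
        exact this
    exact h0.imp (key _) (Or.imp (key _) (Or.imp (key _) (key _)))
  have hD : ∀ k k' : G0, tr (k : G) Y = tr (k' : G) Y ∨ tr (k : G) Y = (tr (k' : G) Y)ᶜ → k = k' := by
    intro k k' e
    have := hav ((k' : G)⁻¹ * k) (by
      rw [Set.mem_ofPred_eq, hpre]
      rcases e with e | e
      · left
        rw [e, hpre']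
      · right
        rw [e, Set.preimage_compl, hpre']) (G0.mul_mem (G0.inv_mem k'.2) k.2)
    exact Subtype.ext (inv_mul_eq_one.1 this).symm
  have hex : ∀ u v : G, ∃ l, IsL (fun k : G0 => tr (k : G) Y) u v l := fun u v =>
    exists_isL hN hD ((sep_finite hI u v).preimage Subtype.val_injective.injOn)
  choose L hL using hex
  have h1 : tr ((1 : G0) : G) Y = Y := by
    ext x
    simp [tr]
  obtain ⟨o, y, l0, h0⟩ : ∃ (o y : G) (l0 : List G0),
      IsL (fun k : G0 => tr (k : G) Y) o y (1 :: l0) := by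
    have hm : (1 : G0) ∈ L a b := ((hL a b).1 1).2 (by
      simp only [Sep, h1]
      exact fun e => hb (e.1 ha))
    have h2 := hL a b
    rcases hl : L a b with _ | ⟨k, l0⟩
    · rw [hl] at hm
      exact absurd hm (by simp)
    · rw [hl] at h2
      have h3 := h2.translate k⁻¹
      rw [List.map_cons, inv_mul_cancel] at h3
      exact ⟨_, _, _, h3⟩
  have hIc : AInv Yᶜ := fun g => (hI g).subset fun x hx => by
    simp only [Set.mem_ofPred_eq, Set.mem_compl_iff] at *
    tauto
  have i1 := coset_infinite (G0 := G0) hY hI o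
  have i2 := coset_infinite (G0 := G0) hYc hIc o
  refine ⟨{g | ¬ (o ∈ Y ↔ (g : G) * o ∈ Y)}, fun g => L o (g * o), ?_, ?_,
    fun g => (hL _ _).nodup, fun g => ⟨fun hg => ?_, fun hg => ?_⟩, fun Γ _ q z hz => ?_⟩
  · by_cases ho : o ∈ Y
    · exact i2.mono fun g hg e => absurd (e.1 ho) hg
    · exact i1.mono fun g hg e => ho (e.2 hg)
  · by_cases ho : o ∈ Y
    · exact i1.mono fun g hg e => e ⟨fun _ => hg, fun _ => ho⟩
    · exact i2.mono fun g hg e => e ⟨fun h' => absurd h' ho, fun h' => absurd h' hg⟩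
  · refine head_of_head h0 (hL _ _) ?_
    simp only [Sep, h1]
    exact hg
  · have := ((hL o (g * o)).1 1).1 (List.mem_of_mem_head? hg)
    simp only [Sep, h1] at this
    exact this
  · have hw : ∀ k : G0, (q k * z * (q k)⁻¹) * (q k * z * (q k)⁻¹) = 1 := fun k => by
      calc _ = q k * (z * z) * (q k)⁻¹ := by group
        _ = 1 := by rw [hz]; group
    refine ⟨MonoidHom.mk' (fun g => ((L o (g * o)).map (fun k => q k * z * (q k)⁻¹)).prod * q g)
      (fun g g' => ?_), fun g => rfl⟩
    have h2 := (hL o (g' * o)).translate g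
    have h3 := hL o ((g * g' : G0) * o)
    rw [Subgroup.coe_mul, mul_assoc] at h3
    have h4 := prod_cocycle hN (hL o (g * o)) h2 h3 _ hw
    have h5 : ((List.map (g * ·) (L o (g' * o))).map (fun k => q k * z * (q k)⁻¹)).prod =
        q g * ((L o (g' * o)).map (fun k => q k * z * (q k)⁻¹)).prod * (q g)⁻¹ := by
      rw [← prod_conj, List.map_map]
      congr 2
      funext k
      simp only [Function.comp, map_mul]
      group
    simp only [Subgroup.coe_mul, mul_assoc (g : G)]
    rw [h4, h5, map_mul]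
    group

end Pool.Agent.MP_e97151_al
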