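import Pool.Agent.MP_e97151_al.Basic

/-! The length function on `Q * Z/2` counting the letters `z` of the normal form. -/

set_option autoImplicit false

namespace Pool.Agent.MP_e97151_al

structure ZLen {V : Type} [Group V] (z : V) (L : V → ℕ) : Prop where
  one : L 1 = 0
  lz : L z = 1
  inv : ∀ v, L v⁻¹ = L v
  ultra : ∀ g h k, min ((L g : ℝ) + L h - L (g⁻¹ * h)) ((L h : ℝ) + L k - L (h⁻¹ * k)) ≤
    (L g : ℝ) + L k - L (g⁻¹ * k)
  par : ∀ g h, Even (L g + L h + L (g⁻¹ * h))
  edge : ∀ g j, j < L g → ∃ k, L k = j ∧ L (k * z) = j + 1 ∧ L (k⁻¹ * g) + j = L g ∧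
    L ((k * z)⁻¹ * g) + (j + 1) = L g
  rigid : ∀ u, L u = 0 → L (z⁻¹ * u * z) = 0 → u = 1

section Words

variable {Q : Type} [DecidableEq Q]

/-- length of the longest common initial segment -/
def vm_lcp : List Q → List Q → ℕ
  | a :: l, b :: m => if a = b then vm_lcp l m + 1 else 0
  | _, _ => 0

lemma vm_lcp_nil_right (l : List Q) : vm_lcp l [] = 0 := by cases l <;> rfl

lemma vm_lcp_nil_left (l : List Q) : vm_lcp [] l = 0 := by cases l <;> rfl

lemma vm_lcp_cons (a : Q) (l m : List Q) : vm_lcp (a :: l) (a :: m) = vm_lcp l m + 1 := by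
  simp [vm_lcp]

lemma vm_lcp_left {a : Q} (l : List Q) {m : List Q} (h : m.head? ≠ some a) :
    vm_lcp (a :: l) m = 0 := by
  cases m with
  | nil => rfl
  | cons b m =>
    have : a ≠ b := fun e => h (by simp [e])
    simp [vm_lcp, this]

lemma vm_lcp_right {a : Q} (l : List Q) {m : List Q} (h : m.head? ≠ some a) :
    vm_lcp m (a :: l) = 0 := by
  cases m with
  | nil => rfl
  | cons b m =>
    have : b ≠ a := fun e => h (by simp [e])
    simp [vm_lcp, this]

lemma vm_lcp_ultra : ∀ l m n : List Q, min (vm_lcp l m) (vm_lcp m n) ≤ vm_lcp l n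
  | [], _, _ => by simp [vm_lcp_nil_left]
  | _, [], _ => by simp [vm_lcp_nil_left]
  | _, _, [] => by simp [vm_lcp_nil_right]
  | a :: l, b :: m, c :: n => by
    have := vm_lcp_ultra l m n
    simp only [vm_lcp]
    split_ifs with h1 h2 h3 <;> first | omega | exact absurd (h1.trans h2) h3

lemma vm_lcp_append : ∀ l m : List Q, vm_lcp l (l ++ m) = l.length
  | [], _ => vm_lcp_nil_left _
  | a :: l, m => by rw [List.cons_append, vm_lcp_cons, vm_lcp_append l m, List.length_cons]

lemma vm_lcp_map {f : Q → Q} (hf : Function.Injective f) :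
    ∀ l m : List Q, vm_lcp (l.map f) (m.map f) = vm_lcp l m
  | [], _ => by simp [vm_lcp_nil_left]
  | _, [] => by simp [vm_lcp_nil_right]
  | a :: l, b :: m => by simp [vm_lcp, hf.eq_iff, vm_lcp_map hf l m]

variable [Group Q]

/-- the action of `z` on words -/
def vm_t (l : List Q) : List Q := if l.head? = some 1 then l.tail else 1 :: l

lemma vm_t_cons (l : List Q) : vm_t (1 :: l) = l := by simp [vm_t]

lemma vm_t_ne {l : List Q} (h : l.head? ≠ some 1) : vm_t l = 1 :: l := if_neg h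

omit [DecidableEq Q] in
lemma vm_cases (l : List Q) (hl : l.IsChain (· ≠ ·)) :
    (∃ m, l = 1 :: m ∧ m.head? ≠ some 1) ∨ l.head? ≠ some 1 := by
  by_cases h : l.head? = some 1
  · obtain ⟨m, rfl⟩ := List.head?_eq_some_iff.1 h
    exact Or.inl ⟨m, rfl, fun e => (List.isChain_cons.1 hl).1 1 e rfl⟩
  · exact Or.inr h

lemma vm_t_chain {l : List Q} (hl : l.IsChain (· ≠ ·)) : (vm_t l).IsChain (· ≠ ·) := by
  rcases vm_cases l hl with ⟨m, rfl, -⟩ | h
  · rw [vm_t_cons]
    exact hl.tail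
  · rw [vm_t_ne h]
    exact List.isChain_cons.2 ⟨fun y hy e => h (e ▸ hy), hl⟩

lemma vm_t_t {l : List Q} (hl : l.IsChain (· ≠ ·)) : vm_t (vm_t l) = l := by
  rcases vm_cases l hl with ⟨m, rfl, h⟩ | h
  · rw [vm_t_cons, vm_t_ne h]
  · rw [vm_t_ne h, vm_t_cons]

lemma vm_t_iso {l m : List Q} (hl : l.IsChain (· ≠ ·)) (hm : m.IsChain (· ≠ ·)) :
    (vm_t l).length + (vm_t m).length + 2 * vm_lcp l m =
      l.length + m.length + 2 * vm_lcp (vm_t l) (vm_t m) := by
  rcases vm_cases l hl with ⟨l, rfl, h⟩ | h <;> rcases vm_cases m hm with ⟨m, rfl, h'⟩ | h'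
  · simp only [vm_t_cons, vm_lcp_cons, List.length_cons]
    omega
  · simp only [vm_t_cons, vm_t_ne h', vm_lcp_left _ h', vm_lcp_right _ h, List.length_cons]
    omega
  · simp only [vm_t_cons, vm_t_ne h, vm_lcp_left _ h', vm_lcp_right _ h, List.length_cons]
    omega
  · simp only [vm_t_ne h, vm_t_ne h', vm_lcp_cons, List.length_cons]
    omega

variable (Q) in
/-- reduced words -/
def vm_W : Type := {l : List Q // l.IsChain (· ≠ ·)}

def vm_tau : Function.End (vm_W Q) := fun l => ⟨vm_t l.1, vm_t_chain l.2⟩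

def vm_q : Q →* Function.End (vm_W Q) where
  toFun q l := ⟨l.1.map (q * ·), (List.isChain_map _).2 (l.2.imp fun _ _ h => by simpa using h)⟩
  map_one' := funext fun l => Subtype.ext (by simp [Function.End.one_def])
  map_mul' p q := funext fun l => Subtype.ext (by simp [Function.End.mul_def, mul_assoc])

def vm_z : Multiplicative (ZMod 2) →* Function.End (vm_W Q) where
  toFun c := vm_tau ^ c.toAdd.val
  map_one' := pow_zero _
  map_mul' a b := by
    have h : (vm_tau : Function.End (vm_W Q)) ^ 2 = 1 := by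
      rw [sq]
      exact funext fun l => Subtype.ext (vm_t_t l.2)
    rw [toAdd_mul, ZMod.val_add, ← pow_eq_pow_mod _ h, pow_add]

/-- the action on reduced words -/
def vm_rho : VV Q →* Function.End (vm_W Q) := Monoid.Coprod.lift vm_q vm_z

lemma vm_rho_inl (q : Q) (l : vm_W Q) :
    (vm_rho (Monoid.Coprod.inl q) l).1 = l.1.map (q * ·) := rfl

lemma vm_rho_z (l : vm_W Q) : (vm_rho (zz Q) l).1 = vm_t l.1 := rfl

lemma vm_rho_mul (g h : VV Q) (l : vm_W Q) : vm_rho (g * h) l = vm_rho g (vm_rho h l) := by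
  rw [map_mul]
  rfl

lemma vm_rho_one (l : vm_W Q) : vm_rho 1 l = l := by
  rw [map_one]
  rfl

omit [DecidableEq Q] in
lemma vm_induction {P : VV Q → Prop} (h1 : ∀ q, P (Monoid.Coprod.inl q)) (h2 : P (zz Q))
    (h3 : ∀ g h, P g → P h → P (g * h)) (g : VV Q) : P g := by
  induction g using Monoid.Coprod.induction_on with
  | inl q => exact h1 q
  | inr c =>
    have h : c = 1 ∨ c = Multiplicative.ofAdd 1 := by revert c; decide
    rcases h with rfl | rfl
    · simpa using h1 1
    · exact h2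
  | mul g h hg hh => exact h3 g h hg hh

lemma vm_iso (g : VV Q) : ∀ l m : vm_W Q,
    (vm_rho g l).1.length + (vm_rho g m).1.length + 2 * vm_lcp l.1 m.1 =
      l.1.length + m.1.length + 2 * vm_lcp (vm_rho g l).1 (vm_rho g m).1 := by
  induction g using vm_induction with
  | h1 q =>
    intro l m
    simp only [vm_rho_inl, List.length_map, vm_lcp_map (mul_right_injective q)]
  | h2 => exact fun l m => vm_t_iso l.2 m.2
  | h3 g h hg hh =>
    intro l m
    have h1 := hg (vm_rho h l) (vm_rho h m)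
    have h2 := hh l m
    simp only [vm_rho_mul]
    omega

/-- the empty word -/
def vm_e : vm_W Q := ⟨[], List.isChain_nil⟩

/-- the reduced word of an element -/
def vm_w (g : VV Q) : List Q := (vm_rho g vm_e).1

lemma vm_key (g h : VV Q) : (vm_w (g⁻¹ * h)).length + 2 * vm_lcp (vm_w g) (vm_w h) =
    (vm_w g).length + (vm_w h).length := by
  have h1 := vm_iso g⁻¹ (vm_rho g vm_e) (vm_rho h vm_e)
  rw [← vm_rho_mul, ← vm_rho_mul, inv_mul_cancel, vm_rho_one] at h1
  simpa [vm_e, vm_lcp_nil_left, vm_w] using h1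

/-- the product of the conjugates of `z` -/
def vm_T (l : List Q) : VV Q :=
  (l.map (fun k => Monoid.Coprod.inl k * zz Q * (Monoid.Coprod.inl k)⁻¹)).prod

omit [DecidableEq Q] in
lemma vm_T_cons (k : Q) (l : List Q) :
    vm_T (k :: l) = Monoid.Coprod.inl k * zz Q * (Monoid.Coprod.inl k)⁻¹ * vm_T l := by
  simp [vm_T]

lemma vm_conj (k : Q) (l : vm_W Q) :
    (vm_rho (Monoid.Coprod.inl k * zz Q * (Monoid.Coprod.inl k)⁻¹) l).1 =
      (vm_t (l.1.map (k⁻¹ * ·))).map (k * ·) := by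
  rw [vm_rho_mul, vm_rho_mul, ← map_inv, vm_rho_inl, vm_rho_z, vm_rho_inl]

lemma vm_T_le (l : List Q) (m : vm_W Q) : (vm_rho (vm_T l) m).1.length ≤ l.length + m.1.length := by
  induction l with
  | nil => simp [vm_T, vm_rho_one]
  | cons k l ih =>
    rw [vm_T_cons, vm_rho_mul, vm_conj, List.length_map, vm_t]
    split_ifs <;> simp <;> omega

lemma vm_T_append (l : List Q) (m : vm_W Q) (h : (l ++ m.1).IsChain (· ≠ ·)) :
    (vm_rho (vm_T l) m).1 = l ++ m.1 := by
  induction l with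
  | nil => simp [vm_T, vm_rho_one]
  | cons k l ih =>
    obtain ⟨h1, h2⟩ := List.isChain_cons.1 h
    rw [vm_T_cons, vm_rho_mul, vm_conj, ih h2, vm_t_ne]
    · simp
    · rw [List.head?_map, Ne, Option.map_eq_some_iff]
      rintro ⟨a, h3, h4⟩
      exact h1 a h3 (inv_mul_eq_one.1 h4)

lemma vm_w_T (l : List Q) (q : Q) (h : l.IsChain (· ≠ ·)) :
    vm_w (vm_T l * Monoid.Coprod.inl q) = l := by
  rw [vm_w, vm_rho_mul, vm_T_append]
  · simp [vm_rho_inl, vm_e]
  · simpa [vm_rho_inl, vm_e] using h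

omit [DecidableEq Q] in
lemma vm_inl_T (p : Q) (l : List Q) :
    Monoid.Coprod.inl p * vm_T l = vm_T (l.map (p * ·)) * Monoid.Coprod.inl p := by
  induction l with
  | nil => simp [vm_T]
  | cons k l ih =>
    rw [List.map_cons, vm_T_cons, vm_T_cons, mul_assoc _ (vm_T _), ← ih, map_mul]
    group

lemma vm_nf (g : VV Q) : ∀ (l : vm_W Q) (q : Q), ∃ q' : Q,
    g * (vm_T l.1 * Monoid.Coprod.inl q) = vm_T (vm_rho g l).1 * Monoid.Coprod.inl q' := by
  induction g using vm_induction with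
  | h1 p => exact fun l q => ⟨p * q, by rw [vm_rho_inl, ← mul_assoc, vm_inl_T, map_mul, mul_assoc]⟩
  | h2 =>
    refine fun l q => ⟨q, ?_⟩
    rw [vm_rho_z, ← mul_assoc]
    rcases vm_cases l.1 l.2 with ⟨m, h, -⟩ | h
    · rw [h, vm_t_cons, vm_T_cons]
      simp [← mul_assoc, zz_mul_self]
    · rw [vm_t_ne h, vm_T_cons]
      simp
  | h3 g h hg hh =>
    intro l q
    obtain ⟨q', h1⟩ := hh l q
    obtain ⟨q'', h2⟩ := hg (vm_rho h l) q'
    exact ⟨q'', by rw [mul_assoc, h1, h2, vm_rho_mul]⟩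

lemma vm_zlen : ZLen (zz Q) fun g => (vm_w g).length where
  one := by simp [vm_w, vm_rho_one, vm_e]
  lz := by simp [vm_w, vm_rho_z, vm_e, vm_t]
  inv v := by simpa [vm_w, vm_rho_one, vm_e, vm_lcp_nil_right] using vm_key v 1
  ultra g h k := by
    have h1 := vm_key g h
    have h2 := vm_key h k
    have h3 := vm_key g k
    have h4 := vm_lcp_ultra (vm_w g) (vm_w h) (vm_w k)
    rw [min_le_iff] at h4 ⊢
    refine h4.imp (fun h5 => ?_) fun h5 => ?_ <;>
      rw [sub_le_sub_iff] <;> norm_cast <;> omega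
  par g h := ⟨(vm_w (g⁻¹ * h)).length + vm_lcp (vm_w g) (vm_w h), by
    have := vm_key g h
    omega⟩
  edge g j hj := by
    have h0 : (vm_w g).IsChain (· ≠ ·) := (vm_rho g vm_e).2
    have h1 := vm_w_T ((vm_w g).take j) (vm_w g)[j] (h0.take j)
    have h2 : vm_w (vm_T ((vm_w g).take j) * Monoid.Coprod.inl (vm_w g)[j] * zz Q) =
        (vm_w g).take (j + 1) := by
      have h3 : (vm_rho (Monoid.Coprod.inl (vm_w g)[j]) (vm_rho (zz Q) vm_e)).1 = [(vm_w g)[j]] := by
        simp [vm_rho_inl, vm_rho_z, vm_e, vm_t]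
      rw [vm_w, vm_rho_mul, vm_rho_mul, vm_T_append, h3, List.take_concat_get']
      rw [h3, List.take_concat_get']
      exact h0.take _
    have h3 : ∀ i ≤ (vm_w g).length, vm_lcp ((vm_w g).take i) (vm_w g) = i := fun i hi => by
      have := vm_lcp_append ((vm_w g).take i) ((vm_w g).drop i)
      rwa [List.take_append_drop, List.length_take_of_le hi] at this
    have h4 := vm_key (vm_T ((vm_w g).take j) * Monoid.Coprod.inl (vm_w g)[j]) g
    have h5 := vm_key (vm_T ((vm_w g).take j) * Monoid.Coprod.inl (vm_w g)[j] * zz Q) g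
    rw [h1, h3 j hj.le, List.length_take_of_le hj.le] at h4
    rw [h2, h3 _ hj, List.length_take_of_le hj] at h5
    exact ⟨_, by rw [h1, List.length_take_of_le hj.le], by rw [h2, List.length_take_of_le hj],
      by omega, by omega⟩
  rigid u h1 h2 := by
    obtain ⟨q, h3⟩ := vm_nf u vm_e 1
    rw [show (vm_rho u vm_e).1 = [] from List.length_eq_zero_iff.1 h1] at h3
    simp only [vm_e, vm_T, List.map_nil, List.prod_nil, map_one, mul_one, one_mul] at h3
    rw [h3, inv_eq_of_mul_eq_one_right (zz_mul_self Q), vm_w, vm_rho_mul, vm_rho_mul, vm_rho_z,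
      vm_rho_inl, vm_rho_z] at h2
    by_cases h4 : q = 1
    · rw [h3, h4, map_one]
    · simp [vm_e, vm_t, h4] at h2

end Words

theorem exists_zlen (Q : Type) [Group Q] : ∃ L : VV Q → ℕ, ZLen (zz Q) L ∧
    (∀ (l : List Q) (q : Q),
      L ((l.map (fun k => Monoid.Coprod.inl k * zz Q * (Monoid.Coprod.inl k)⁻¹)).prod *
        Monoid.Coprod.inl q) ≤ l.length) ∧
    (∀ (l : List Q) (q : Q), l.IsChain (· ≠ ·) →
      (L (zz Q * ((l.map (fun k => Monoid.Coprod.inl k * zz Q * (Monoid.Coprod.inl k)⁻¹)).prod *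
        Monoid.Coprod.inl q)) <
      L ((l.map (fun k => Monoid.Coprod.inl k * zz Q * (Monoid.Coprod.inl k)⁻¹)).prod *
        Monoid.Coprod.inl q) ↔ l.head? = some 1)) := by
  classical
  refine ⟨_, vm_zlen, fun l q => ?_, fun l q h => ?_⟩
  · have h1 := vm_T_le l (vm_rho (Monoid.Coprod.inl q) vm_e)
    rw [← vm_rho_mul] at h1
    exact h1
  · have h1 := vm_w_T l q h
    change (vm_w (zz Q * (vm_T l * _))).length < (vm_w (vm_T l * _)).length ↔ _
    rw [h1, vm_w, vm_rho_mul, vm_rho_z, ← vm_w, h1]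
    rcases vm_cases l h with ⟨m, rfl, -⟩ | h2
    · simp [vm_t_cons]
    · simp [vm_t_ne h2, h2]

end Pool.Agent.MP_e97151_al
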