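import Mathlib

/-! Finitely generated commutative rings are residually finite. -/

set_option autoImplicit false

namespace Pool.Agent.MP_e97151_al

theorem int_isJacobsonRing : IsJacobsonRing ℤ := by
  rw [isJacobsonRing_iff_prime_eq]
  intro P hP
  by_cases h : P = ⊥
  · subst h
    rw [eq_bot_iff]
    intro x hx
    rw [Ideal.mem_bot]
    by_contra hx0
    obtain ⟨q, hq1, hq2⟩ := Nat.exists_infinite_primes (x.natAbs + 1)
    have hqp : Prime (q : ℤ) := Nat.prime_iff_prime_int.1 hq2
    have hmax : (Ideal.span {(q : ℤ)}).IsMaximal :=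
      PrincipalIdealRing.isMaximal_of_irreducible hqp.irreducible
    have hx2 : x ∈ Ideal.span {(q : ℤ)} := by
      rw [Ideal.jacobson, Ideal.mem_sInf] at hx
      exact hx ⟨bot_le, hmax⟩
    rw [Ideal.mem_span_singleton, Int.natCast_dvd] at hx2
    have := Nat.le_of_dvd (Int.natAbs_pos.2 hx0) hx2
    omega
  · have : P.IsMaximal := IsPrime.to_maximal_ideal h
    exact Ideal.jacobson_eq_self_of_isMaximal

theorem finite_field_of_finiteType (K : Type) [Field K] [Algebra.FiniteType ℤ K] : Finite K := by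
  have := int_isJacobsonRing
  have hfin : Module.Finite ℤ K := finite_of_finite_type_of_isJacobsonRing ℤ K
  obtain ⟨p, hp⟩ := CharP.exists K
  have hp0 : p ≠ 0 := by
    rintro rfl
    have : CharZero K := CharP.charP_to_charZero _
    have hinj : Function.Injective (algebraMap ℤ K) := by
      intro x y hxy
      simpa using hxy
    exact Int.not_isField (isField_of_isIntegral_of_isField hinj (Field.toIsField _))
  refine Module.finite_of_fg_torsion K ?_
  intro x
  refine ⟨⟨(p : ℤ), mem_nonZeroDivisors_of_ne_zero (by exact_mod_cast hp0)⟩, ?_⟩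
  have h0 : ((p : ℕ) : K) = 0 := CharP.cast_eq_zero K p
  show (p : ℤ) • x = 0
  rw [zsmul_eq_mul, Int.cast_natCast, h0, zero_mul]

/-- `A` is Noetherian. Take a maximal ideal `m` containing the annihilator of `a`. By Krull
`a ∉ m ^ k` for some `k`, and `A ⧸ m ^ k` is finite. -/
theorem ring_rf (A : Type) [CommRing A] [Algebra.FiniteType ℤ A] (a : A) (ha : a ≠ 0) :
    ∃ I : Ideal A, Finite (A ⧸ I) ∧ a ∉ I := by
  have hN : IsNoetherianRing A := Algebra.FiniteType.isNoetherianRing ℤ A
  let J : Ideal A := LinearMap.ker (LinearMap.toSpanSingleton A A a)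
  have hJ : J ≠ ⊤ := by
    intro h
    have h1 : (1 : A) ∈ J := h ▸ Submodule.mem_top
    simp [J] at h1
    exact ha h1
  obtain ⟨m, hm, hJm⟩ := Ideal.exists_le_maximal J hJ
  have hfin : Finite (A ⧸ m) := by
    let _ : Field (A ⧸ m) := Ideal.Quotient.field m
    exact @finite_field_of_finiteType (A ⧸ m) _
      (Algebra.FiniteType.of_surjective (Ideal.Quotient.mk m).toIntAlgHom
        Ideal.Quotient.mk_surjective)
  by_contra hcon
  push Not at hcon
  have hall : ∀ k : ℕ, a ∈ m ^ k := fun k =>
    hcon (m ^ k) (Ideal.finite_quotient_pow (IsNoetherian.noetherian m) k)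
  have hmem : a ∈ (⨅ i : ℕ, m ^ i • ⊤ : Submodule A A) := by
    rw [Submodule.mem_iInf]
    intro i
    rw [smul_eq_mul, Ideal.mul_top]
    exact hall i
  obtain ⟨r, hr⟩ := (Ideal.mem_iInf_smul_pow_eq_bot_iff m a).1 hmem
  have h1 : (1 - (r : A)) ∈ J := by
    simp only [J, LinearMap.mem_ker, LinearMap.toSpanSingleton_apply, sub_smul, one_smul, hr, sub_self]
  have h2 : (1 : A) ∈ m := by
    have := m.add_mem (hJm h1) r.2
    simpa using this
  exact hm.ne_top ((Ideal.eq_top_iff_one m).2 h2)

end Pool.Agent.MP_e97151_al
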