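import Pool.Agent.MP_e97151_al.Groth
import Pool.Agent.MP_e97151_al.RFRing

/-! Homomorphisms to `SL(2,ℤ)` extend along Grothendieck pairs (Grothendieck 1970). -/

set_option autoImplicit false

namespace Pool.Agent.MP_e97151_al

open scoped TensorProduct

theorem sl2_rf (A : Type) [CommRing A] [Algebra.FiniteType ℤ A] :
    RF (Matrix.SpecialLinearGroup (Fin 2) A) := by
  intro g hg
  have h1 : ∃ i j, g i j - (1 : Matrix.SpecialLinearGroup (Fin 2) A) i j ≠ 0 := by
    by_contra hcon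
    push Not at hcon
    exact hg (Matrix.SpecialLinearGroup.ext _ _ fun i j => sub_eq_zero.mp (hcon i j))
  obtain ⟨i, j, hij⟩ := h1
  obtain ⟨I, hI, ha⟩ := ring_rf A _ hij
  refine ⟨(Matrix.SpecialLinearGroup.map (n := Fin 2) (Ideal.Quotient.mk I)).ker, inferInstance,
    Subgroup.finiteIndex_ker _, ?_⟩
  intro hk
  rw [MonoidHom.mem_ker] at hk
  apply ha
  rw [← Ideal.Quotient.eq]
  have h2 : (Matrix.SpecialLinearGroup.map (n := Fin 2) (Ideal.Quotient.mk I)) g =
      (Matrix.SpecialLinearGroup.map (n := Fin 2) (Ideal.Quotient.mk I)) 1 := by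
    rw [hk, map_one]
  exact (Matrix.SpecialLinearGroup.ext_iff _ _).mp h2 i j

theorem sl2_rf' (A : Type) [CommRing A] [inst : Algebra ℤ A] (h : Algebra.FiniteType ℤ A) :
    RF (Matrix.SpecialLinearGroup (Fin 2) A) := by
  obtain rfl : inst = Ring.toIntAlgebra A := Subsingleton.elim _ _
  exact sl2_rf A

theorem sl2_int_eq (a b : ℤ) (h : ∀ n : ℕ, (a : ZMod (n + 1)) = (b : ZMod (n + 1))) : a = b := by
  have h1 := h (b - a).natAbs
  rw [ZMod.intCast_eq_intCast_iff_dvd_sub] at h1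
  have h2 : b - a = 0 := by
    apply Int.eq_zero_of_dvd_of_natAbs_lt_natAbs h1
    simp only [Int.natAbs_natCast]
    omega
  omega

theorem sl2_tensor {A : Type} [CommRing A] [inst : Module ℤ A] (x : A)
    (hx : x ⊗ₜ[ℤ] (1 : A) = (1 : A) ⊗ₜ[ℤ] x) :
    ∃ a b : ℤ, (a ≠ 0 ∨ b ≠ 0) ∧ (a : A) + (b : A) * x = 0 := by
  obtain rfl : inst = AddCommGroup.toIntModule A := Subsingleton.elim _ _
  by_contra hcon
  push Not at hcon
  let i : (ℤ × ℤ) →+ A :=
    { toFun := fun p => (p.1 : A) + (p.2 : A) * x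
      map_zero' := by simp
      map_add' := by
        intro p q
        simp only [Prod.fst_add, Prod.snd_add, Int.cast_add]
        ring }
  have hi : Function.Injective i := by
    rw [injective_iff_map_eq_zero]
    intro p hp
    by_contra hne
    refine hcon p.1 p.2 ?_ hp
    by_contra hh
    push Not at hh
    exact hne (Prod.ext hh.1 hh.2)
  obtain ⟨f, hf⟩ := (Module.Baer.of_divisible ℚ).extension_property_addMonoidHom i hi
    ((Int.castAddHom ℚ).comp (AddMonoidHom.fst ℤ ℤ))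
  obtain ⟨g, hg⟩ := (Module.Baer.of_divisible ℚ).extension_property_addMonoidHom i hi
    ((Int.castAddHom ℚ).comp (AddMonoidHom.snd ℤ ℤ))
  have e1 : i (1, 0) = 1 := by simp [i]
  have e2 : i (0, 1) = x := by simp [i]
  have f1 : f 1 = 1 := by
    have := DFunLike.congr_fun hf (1, 0)
    simpa [e1] using this
  have f2 : f x = 0 := by
    have := DFunLike.congr_fun hf (0, 1)
    simpa [e2] using this
  have g2 : g x = 1 := by
    have := DFunLike.congr_fun hg (0, 1)
    simpa [e2] using this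
  let B : A →+ A →+ ℚ :=
    { toFun := fun s => (AddMonoidHom.mulLeft (f s)).comp g
      map_zero' := by
        ext t
        simp
      map_add' := by
        intro s t
        ext w
        simp [add_mul] }
  have hB : ∀ s t, B s t = f s * g t := fun s t => rfl
  let F : A ⊗[ℤ] A →+ ℚ := TensorProduct.liftAddHom B (by
    intro r s t
    rw [hB, hB, map_zsmul, map_zsmul, zsmul_eq_mul, zsmul_eq_mul]
    ring)
  have hF : ∀ s t, F (s ⊗ₜ[ℤ] t) = f s * g t := fun s t => TensorProduct.liftAddHom_tmul _ _ _ _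
  have h1 := congrArg F hx
  rw [hF, hF, f1, f2, g2] at h1
  simp at h1

theorem sl2_const (y : ∀ n : ℕ, ZMod (n + 1))
    (hc : ∀ (n m : ℕ) (h : n + 1 ∣ m + 1), ZMod.castHom h (ZMod (n + 1)) (y m) = y n)
    (a b : ℤ) (hab : a ≠ 0 ∨ b ≠ 0)
    (h : ∀ n : ℕ, (a : ZMod (n + 1)) + (b : ZMod (n + 1)) * y n = 0) :
    ∃ c : ℤ, ∀ n : ℕ, y n = (c : ZMod (n + 1)) := by
  have hb : b ≠ 0 := by
    intro hb
    subst hb
    have ha : a = 0 := by
      apply sl2_int_eq
      intro n
      simpa using h n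
    simp [ha] at hab
  have hpos : 0 < b.natAbs := Int.natAbs_pos.mpr hb
  have hdvd : b ∣ a := by
    have h1 := h (b.natAbs - 1)
    have e : ((b.natAbs - 1 + 1 : ℕ) : ℤ) = (b.natAbs : ℤ) := by omega
    have h2 : (b : ZMod (b.natAbs - 1 + 1)) = 0 := by
      rw [ZMod.intCast_zmod_eq_zero_iff_dvd, e]
      exact Int.natAbs_dvd.mpr dvd_rfl
    rw [h2, zero_mul, add_zero, ZMod.intCast_zmod_eq_zero_iff_dvd, e] at h1
    exact Int.natAbs_dvd.mp h1
  obtain ⟨c, rfl⟩ := hdvd
  refine ⟨-c, fun n => ?_⟩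
  obtain ⟨m, hm⟩ : ∃ m : ℕ, m + 1 = (n + 1) * b.natAbs :=
    ⟨(n + 1) * b.natAbs - 1, by
      have : 0 < (n + 1) * b.natAbs := Nat.mul_pos (Nat.succ_pos n) hpos
      omega⟩
  have hd : n + 1 ∣ m + 1 := ⟨b.natAbs, hm⟩
  obtain ⟨z, hz⟩ := ZMod.intCast_surjective (y m)
  have h1 := h m
  rw [← hz] at h1
  have h2 : ((b * (c + z) : ℤ) : ZMod (m + 1)) = 0 := by
    rw [← h1]
    push_cast
    ring
  rw [ZMod.intCast_zmod_eq_zero_iff_dvd, hm] at h2
  have h3 : ((n + 1 : ℕ) : ℤ) ∣ c + z := by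
    have h4 : ((n + 1 : ℕ) : ℤ) * b ∣ (c + z) * b := by
      rw [← Int.natAbs_dvd, Int.natAbs_mul, Int.natAbs_natCast, mul_comm (c + z) b]
      exact h2
    exact (mul_dvd_mul_iff_right hb).mp h4
  rw [← hc n m hd, ← hz, map_intCast]
  rw [← ZMod.intCast_zmod_eq_zero_iff_dvd] at h3
  push_cast at h3 ⊢
  linear_combination h3

theorem sl2_ext (A B : Matrix.SpecialLinearGroup (Fin 2) ℤ)
    (h : ∀ n : ℕ, Matrix.SpecialLinearGroup.map (n := Fin 2) (Int.castRingHom (ZMod (n + 1))) A =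
      Matrix.SpecialLinearGroup.map (n := Fin 2) (Int.castRingHom (ZMod (n + 1))) B) : A = B := by
  refine Matrix.SpecialLinearGroup.ext _ _ fun i j => sl2_int_eq _ _ fun n => ?_
  exact (Matrix.SpecialLinearGroup.ext_iff _ _).mp (h n) i j

theorem sl2_entries {G H : Type} [Group G] [Group H] {u : G →* H} (hH : Group.FG H) (hu : GP u)
    (φ : G →* Matrix.SpecialLinearGroup (Fin 2) ℤ)
    (ψ : ∀ n : ℕ, H →* Matrix.SpecialLinearGroup (Fin 2) (ZMod (n + 1)))
    (hψ : ∀ n : ℕ, (ψ n).comp u =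
      (Matrix.SpecialLinearGroup.map (n := Fin 2) (Int.castRingHom (ZMod (n + 1)))).comp φ)
    (h : H) (i j : Fin 2) :
    ∃ a b : ℤ, (a ≠ 0 ∨ b ≠ 0) ∧
      ∀ n : ℕ, (a : ZMod (n + 1)) + (b : ZMod (n + 1)) * (ψ n h) i j = 0 := by
  classical
  obtain ⟨S, -, -, hS⟩ := exists_symm_gens hH ∅
  let R : Type := ∀ n : ℕ, ZMod (n + 1)
  let E : H → Fin 2 → Fin 2 → R := fun h i j n => (ψ n h) i j
  have Emul : ∀ (a b : H) (i j : Fin 2), E (a * b) i j = E a i 0 * E b 0 j + E a i 1 * E b 1 j := by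
    intro a b i j
    funext n
    show (ψ n (a * b)) i j = (ψ n a) i 0 * (ψ n b) 0 j + (ψ n a) i 1 * (ψ n b) 1 j
    rw [map_mul, Matrix.SpecialLinearGroup.coe_mul, Matrix.mul_apply, Fin.sum_univ_two]
  have Eone : ∀ i j : Fin 2, E 1 i j = if i = j then 1 else 0 := by
    intro i j
    funext n
    show (ψ n 1) i j = _
    rw [map_one, Matrix.SpecialLinearGroup.coe_one, Matrix.one_apply]
    split_ifs <;> rfl
  have Edet : ∀ a : H, E a 0 0 * E a 1 1 - E a 0 1 * E a 1 0 = 1 := by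
    intro a
    funext n
    have := (ψ n a).det_coe
    rw [Matrix.det_fin_two] at this
    exact this
  let X : Set R := (fun p : H × Fin 2 × Fin 2 => E p.1 p.2.1 p.2.2) '' ((S : Set H) ×ˢ Set.univ)
  have hX : X.Finite := (S.finite_toSet.prod Set.finite_univ).image _
  let R' : Subalgebra ℤ R := Algebra.adjoin ℤ X
  have hft : Algebra.FiniteType ℤ R' := Algebra.FiniteType.adjoin_of_finite hX
  have hmem : ∀ (a : H) (i j : Fin 2), E a i j ∈ R' := by
    intro a
    obtain ⟨l, hl, rfl⟩ := hS a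
    induction l with
    | nil =>
      intro i j
      rw [List.prod_nil, Eone]
      split_ifs
      · exact R'.one_mem
      · exact R'.zero_mem
    | cons s l ih =>
      intro i j
      have ih' := ih (fun a ha => hl a (List.mem_cons_of_mem _ ha))
      have hs : ∀ i j : Fin 2, E s i j ∈ R' := fun i j =>
        Algebra.subset_adjoin ⟨(s, i, j), ⟨hl s List.mem_cons_self, Set.mem_univ _⟩, rfl⟩
      rw [List.prod_cons, Emul]
      exact R'.add_mem (R'.mul_mem (hs _ _) (ih' _ _)) (R'.mul_mem (hs _ _) (ih' _ _))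
  let f0 : H → Matrix.SpecialLinearGroup (Fin 2) R' := fun a =>
    ⟨Matrix.of fun i j => ⟨E a i j, hmem a i j⟩, by
        rw [Matrix.det_fin_two]
        exact Subtype.ext (Edet a)⟩
  let ψ' : H →* Matrix.SpecialLinearGroup (Fin 2) R' :=
    MonoidHom.mk' f0 (by
      intro a b
      refine Matrix.SpecialLinearGroup.ext _ _ fun i j => ?_
      rw [Matrix.SpecialLinearGroup.coe_mul, Matrix.mul_apply, Fin.sum_univ_two]
      exact Subtype.ext (Emul a b i j))
  have hψ' : ∀ (g : G) (i j : Fin 2), (ψ' (u g)) i j = (((φ g) i j : ℤ) : R') := by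
    intro g i j
    apply Subtype.ext
    funext n
    have h1 := DFunLike.congr_fun (hψ n) g
    have h2 := (Matrix.SpecialLinearGroup.ext_iff _ _).mp h1 i j
    have h3 : ((((φ g) i j : ℤ) : R') : R) = (((φ g) i j : ℤ) : R) := by simp
    rw [h3]
    exact h2
  have hT : Algebra.FiniteType ℤ (R' ⊗[ℤ] R') :=
    Algebra.FiniteType.trans hft (Algebra.FiniteType.baseChange R')
  let l : R' →+* R' ⊗[ℤ] R' := Algebra.TensorProduct.includeLeftRingHom
  let r : R' →+* R' ⊗[ℤ] R' := (Algebra.TensorProduct.includeRight : R' →ₐ[ℤ] R' ⊗[ℤ] R').toRingHom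
  have hlr := hu.uniq (sl2_rf' (R' ⊗[ℤ] R') hT)
    ((Matrix.SpecialLinearGroup.map (n := Fin 2) l).comp ψ')
    ((Matrix.SpecialLinearGroup.map (n := Fin 2) r).comp ψ') (by
      ext g i j
      show l ((ψ' (u g)) i j) = r ((ψ' (u g)) i j)
      rw [hψ', map_intCast, map_intCast])
  have h1 := (Matrix.SpecialLinearGroup.ext_iff _ _).mp (DFunLike.congr_fun hlr h) i j
  obtain ⟨a, b, hab, h2⟩ := sl2_tensor ((ψ' h) i j) h1
  refine ⟨a, b, hab, fun n => ?_⟩
  have h3 : (a : R) + (b : R) * E h i j = 0 := by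
    have h4 := congrArg (fun z : R' => (z : R)) h2
    have h5 : (((ψ' h) i j : R') : R) = E h i j := rfl
    rw [← h5]
    simpa using h4
  exact congrFun h3 n

theorem inC_SL2 : InC (Matrix.SpecialLinearGroup (Fin 2) ℤ) := by
  refine ⟨sl2_rf ℤ, ?_⟩
  intro G H _ _ u hH hu φ
  have h0 : ∀ n : ℕ, ∃ ψ : H →* Matrix.SpecialLinearGroup (Fin 2) (ZMod (n + 1)), ψ.comp u =
      (Matrix.SpecialLinearGroup.map (n := Fin 2) (Int.castRingHom (ZMod (n + 1)))).comp φ :=
    fun n => (hu _).2 _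
  choose ψ hψ using h0
  have hcomp : ∀ (n m : ℕ) (h : n + 1 ∣ m + 1),
      (Matrix.SpecialLinearGroup.map (n := Fin 2) (ZMod.castHom h (ZMod (n + 1)))).comp (ψ m) = ψ n := by
    intro n m h
    apply (hu _).1
    show MonoidHom.comp _ u = MonoidHom.comp _ u
    rw [MonoidHom.comp_assoc, hψ, hψ]
    ext g i j
    show ZMod.castHom h (ZMod (n + 1)) (((φ g) i j : ℤ) : ZMod (m + 1)) = (((φ g) i j : ℤ) : ZMod (n + 1))
    rw [map_intCast]
  have h1 : ∀ (h : H) (i j : Fin 2), ∃ c : ℤ, ∀ n : ℕ, (ψ n h) i j = (c : ZMod (n + 1)) := by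
    intro h i j
    obtain ⟨a, b, hab, h2⟩ := sl2_entries hH hu φ ψ hψ h i j
    refine sl2_const (fun n => (ψ n h) i j) ?_ a b hab h2
    intro n m hd
    exact (Matrix.SpecialLinearGroup.ext_iff _ _).mp (DFunLike.congr_fun (hcomp n m hd) h) i j
  choose c hc using h1
  have hdet : ∀ h : H, (Matrix.of (c h)).det = 1 := by
    intro h
    apply sl2_int_eq
    intro n
    have := (ψ n h).det_coe
    rw [Matrix.det_fin_two, hc, hc, hc, hc] at this
    rw [Matrix.det_fin_two]
    simpa using this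
  let f : H → Matrix.SpecialLinearGroup (Fin 2) ℤ := fun h => ⟨Matrix.of (c h), hdet h⟩
  have hf : ∀ (h : H) (n : ℕ),
      Matrix.SpecialLinearGroup.map (n := Fin 2) (Int.castRingHom (ZMod (n + 1))) (f h) = ψ n h := by
    intro h n
    refine Matrix.SpecialLinearGroup.ext _ _ fun i j => ?_
    exact (hc h i j n).symm
  refine ⟨MonoidHom.mk' f ?_, ?_⟩
  · intro a b
    apply sl2_ext
    intro n
    rw [map_mul, hf, hf, hf, map_mul]
  · refine MonoidHom.ext fun g => ?_
    apply sl2_ext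
    intro n
    show Matrix.SpecialLinearGroup.map (n := Fin 2) (Int.castRingHom (ZMod (n + 1))) (f (u g)) = _
    rw [hf]
    exact DFunLike.congr_fun (hψ n) g

end Pool.Agent.MP_e97151_al
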